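import Mathlib

/-!
# MP_6cfeb2_co: three-dimensional progressions: definitions
-/

set_option autoImplicit false

namespace Pool.Agent.helper21.UD

open RealInnerProductSpace

/-- The three-dimensional progression `{a₀ v₀ + a₁ v₁ + a₂ v₂ : aᵢ integers, |aᵢ| ≤ Nᵢ}` (centred at `0`). -/
def Prog {E : Type} [NormedAddCommGroup E] [InnerProductSpace ℝ E] (v : Fin 3 → E)
    (N : Fin 3 → ℕ) : Set E :=
  {x | ∃ a : Fin 3 → ℤ, (∀ i, |a i| ≤ (N i : ℤ)) ∧ x = ∑ i, (a i : ℝ) • v i}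

/-- The number of index vectors `(a₀, a₁, a₂)` of a progression. -/
def vol (N : Fin 3 → ℕ) : ℕ := ∏ i, (2 * N i + 1)

/-- The Gram matrix `(⟪vᵢ, vⱼ⟫)` is a real multiple of a rational matrix. -/
def RatGram {E : Type} [NormedAddCommGroup E] [InnerProductSpace ℝ E] (v : Fin 3 → E) : Prop :=
  ∃ (r : ℝ) (q : Fin 3 → Fin 3 → ℚ), ∀ i j, ⟪v i, v j⟫ = r * (q i j : ℝ)

end Pool.Agent.helper21.UD
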