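import Pool.Agent.helper21.UD.Conic
import Pool.Agent.helper21.UD.Defs

/-!
# MP_6cfeb2_co: points of a three-dimensional progression on a sphere
-/

set_option autoImplicit false

namespace Pool.Agent.helper21.UD

open RealInnerProductSpace

variable {E : Type} [NormedAddCommGroup E] [InnerProductSpace ℝ E]

/-- at most two points of a line on a sphere -/
theorem line_two {T : Finset E} {u d : E} {τ : E → ℝ}
    (hT : ∀ y ∈ T, y = u + τ y • d ∧ ‖y‖ = 1) : T.card ≤ 2 := by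
  classical
  by_contra h
  push Not at h
  obtain ⟨a, ha, b, hb, c, hc, hab, hac, hbc⟩ := Finset.two_lt_card.mp h
  have hsq : ∀ y ∈ T, ‖u‖ ^ 2 + 2 * (τ y * ⟪u, d⟫) + τ y ^ 2 * ‖d‖ ^ 2 = 1 := by
    intro y hy
    obtain ⟨h1, h2⟩ := hT y hy
    have h3 : ‖u + τ y • d‖ ^ 2 = 1 := by rw [← h1, h2, one_pow]
    rw [norm_add_sq_real, inner_smul_right, norm_smul, mul_pow, Real.norm_eq_abs, sq_abs] at h3
    exact h3
  have hne : ∀ y ∈ T, ∀ z ∈ T, y ≠ z → τ y - τ z ≠ 0 := by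
    intro y hy z hz hyz h0
    apply hyz
    rw [(hT y hy).1, (hT z hz).1, sub_eq_zero.mp h0]
  have ea := hsq a ha
  have eb := hsq b hb
  have ec := hsq c hc
  have h1 : (τ a - τ b) * (2 * ⟪u, d⟫ + (τ a + τ b) * ‖d‖ ^ 2) = 0 := by
    linear_combination ea - eb
  have h2 : (τ a - τ c) * (2 * ⟪u, d⟫ + (τ a + τ c) * ‖d‖ ^ 2) = 0 := by
    linear_combination ea - ec
  have h1' := (mul_eq_zero.mp h1).resolve_left (hne a ha b hb hab)
  have h2' := (mul_eq_zero.mp h2).resolve_left (hne a ha c hc hac)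
  have h3 : (τ b - τ c) * ‖d‖ ^ 2 = 0 := by linear_combination h1' - h2'
  have h4 := (mul_eq_zero.mp h3).resolve_left (hne b hb c hc hbc)
  have h5 : d = 0 := by
    rw [pow_eq_zero_iff two_ne_zero, norm_eq_zero] at h4
    exact h4
  apply hab
  rw [(hT a ha).1, (hT b hb).1, h5, smul_zero, smul_zero]

/-- the conic of a slice -/
noncomputable def coef (u v1 v2 : E) : Fin 6 → ℝ :=
  ![‖v1‖ ^ 2, 2 * ⟪v1, v2⟫, ‖v2‖ ^ 2, 2 * ⟪u, v1⟫, 2 * ⟪u, v2⟫, ‖u‖ ^ 2 - 1]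

theorem con_coef (u v1 v2 : E) (x y : ℝ) :
    con (coef u v1 v2) x y = ‖u + x • v1 + y • v2‖ ^ 2 - 1 := by
  have h : ‖u + x • v1 + y • v2‖ ^ 2 = ‖u‖ ^ 2 + 2 * (x * ⟪u, v1⟫) + x ^ 2 * ‖v1‖ ^ 2 +
      2 * (y * (⟪u, v2⟫ + x * ⟪v1, v2⟫)) + y ^ 2 * ‖v2‖ ^ 2 := by
    rw [norm_add_sq_real, norm_add_sq_real, inner_smul_right, inner_smul_right, inner_add_left,
      real_inner_smul_left, norm_smul, norm_smul, mul_pow, mul_pow, Real.norm_eq_abs,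
      Real.norm_eq_abs, sq_abs, sq_abs]
  rw [h]
  simp only [con, coef, Matrix.cons_val_zero, Matrix.cons_val_one, Matrix.cons_val]
  ring

/-- one slice. -/
theorem slice {N D : ℕ} (hN : 1 ≤ N)
    (hD : ∀ M : ℕ, 0 < M → M ≤ 34 * (720 * N ^ 12) ^ 4 → M.divisors.card ≤ D)
    {u v1 v2 : E} (T : Finset E) (a b : E → ℤ)
    (hT : ∀ y ∈ T, y = u + (a y : ℝ) • v1 + (b y : ℝ) • v2 ∧ |a y| ≤ N ∧ |b y| ≤ N ∧ ‖y‖ = 1) :
    T.card ≤ 25 * D ^ 2 + 4 ∧ (5 ≤ T.card → ∃ q : Fin 6 → ℚ, 0 < ‖v1‖ ^ 2 ∧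
      ∀ j, coef u v1 v2 j = ‖v1‖ ^ 2 * (q j : ℝ)) := by
  classical
  by_cases hΔ : 0 < 4 * ‖v1‖ ^ 2 * ‖v2‖ ^ 2 - (2 * ⟪v1, v2⟫) ^ 2
  · have hv1 : 0 < ‖v1‖ ^ 2 := by
      rcases eq_or_ne v1 0 with rfl | h
      · exfalso
        simp at hΔ
      · positivity
    have hcard : (T.image (fun y => (a y, b y))).card = T.card := by
      refine Finset.card_image_of_injOn ?_
      intro y hy z hz hyz
      obtain ⟨e1, e2⟩ := Prod.mk.inj hyz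
      rw [(hT y hy).1, (hT z hz).1, e1, e2]
    have h1 := conic_count (g := coef u v1 v2) hv1 hΔ hN hD (T.image (fun y => (a y, b y))) (by
      intro z hz
      rw [Finset.mem_image] at hz
      obtain ⟨y, hy, rfl⟩ := hz
      obtain ⟨e1, e2, e3, e4⟩ := hT y hy
      refine ⟨e2, e3, ?_⟩
      rw [con_coef, ← e1, e4]
      norm_num)
    rw [hcard] at h1
    refine ⟨h1.1, fun h5 => ?_⟩
    obtain ⟨c, hc0, hc⟩ := h1.2 h5
    refine ⟨fun j => (c j : ℚ) / (c 0 : ℚ), hv1, fun j => ?_⟩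
    have hc0R : (c 0 : ℝ) ≠ 0 := by exact_mod_cast hc0
    have h2 := hc j
    have h3 : coef u v1 v2 0 = ‖v1‖ ^ 2 := rfl
    rw [h3] at h2
    push_cast
    rw [mul_div_assoc', eq_div_iff hc0R, mul_comm]
    exact h2
  · push Not at hΔ
    have h2 : T.card ≤ 2 := by
      rcases eq_or_ne v1 0 with h | h
      · refine line_two (u := u) (d := v2) (τ := fun y => (b y : ℝ)) ?_
        intro y hy
        obtain ⟨e1, -, -, e4⟩ := hT y hy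
        rw [h, smul_zero, add_zero] at e1
        exact ⟨e1, e4⟩
      · have hv1 : 0 < ‖v1‖ ^ 2 := by positivity
        obtain ⟨t, ht⟩ : ∃ t : ℝ, t = ⟪v1, v2⟫ / ‖v1‖ ^ 2 := ⟨_, rfl⟩
        have h3 : ‖v2 - t • v1‖ ^ 2 ≤ 0 := by
          have ht' : t * ‖v1‖ ^ 2 = ⟪v1, v2⟫ := by
            rw [ht]
            field_simp
          rw [norm_sub_sq_real, inner_smul_right, norm_smul, mul_pow, Real.norm_eq_abs, sq_abs,
            real_inner_comm]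
          have h4 : ‖v1‖ ^ 2 * (‖v2‖ ^ 2 - 2 * (t * ⟪v1, v2⟫) + t ^ 2 * ‖v1‖ ^ 2) ≤ 0 := by
            have e1 : ‖v1‖ ^ 2 * (‖v2‖ ^ 2 - 2 * (t * ⟪v1, v2⟫) + t ^ 2 * ‖v1‖ ^ 2) =
                (4 * ‖v1‖ ^ 2 * ‖v2‖ ^ 2 - (2 * ⟪v1, v2⟫) ^ 2) / 4 := by
              rw [← ht']
              ring
            rw [e1]
            linarith
          by_contra hcon
          push Not at hcon
          have := mul_pos hv1 hcon
          linarith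
        have h4 : v2 = t • v1 := by
          have h5 : ‖v2 - t • v1‖ ^ 2 = 0 := le_antisymm h3 (sq_nonneg _)
          rw [pow_eq_zero_iff two_ne_zero, norm_eq_zero, sub_eq_zero] at h5
          exact h5
        refine line_two (u := u) (d := v1) (τ := fun y => (a y : ℝ) + (b y : ℝ) * t) ?_
        intro y hy
        obtain ⟨e1, -, -, e4⟩ := hT y hy
        refine ⟨?_, e4⟩
        rw [add_smul, mul_smul, ← h4, ← add_assoc]
        exact e1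
    exact ⟨by omega, fun h5 => absurd h5 (by omega)⟩

/-- the hypotheses on a set of points. -/
def InBox (T : Finset E) (N N3 : ℕ) (w v1 v2 v3 : E) (a b c : E → ℤ) : Prop :=
  ∀ y ∈ T, y = w + (a y : ℝ) • v1 + (b y : ℝ) • v2 + (c y : ℝ) • v3 ∧
    |a y| ≤ N ∧ |b y| ≤ N ∧ |c y| ≤ N3 ∧ ‖y‖ = 1

theorem fiber {N D N3 : ℕ} (hN : 1 ≤ N)
    (hD : ∀ M : ℕ, 0 < M → M ≤ 34 * (720 * N ^ 12) ^ 4 → M.divisors.card ≤ D)
    {w v1 v2 v3 : E} {T : Finset E} {a b c : E → ℤ} (hT : InBox T N N3 w v1 v2 v3 a b c) (s : ℤ) :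
    (T.filter (fun y => c y = s)).card ≤ 25 * D ^ 2 + 4 ∧
    (5 ≤ (T.filter (fun y => c y = s)).card → ∃ q : Fin 6 → ℚ, 0 < ‖v1‖ ^ 2 ∧
      ∀ j, coef (w + (s : ℝ) • v3) v1 v2 j = ‖v1‖ ^ 2 * (q j : ℝ)) := by
  refine slice hN hD (T.filter (fun y => c y = s)) a b ?_
  intro y hy
  rw [Finset.mem_filter] at hy
  obtain ⟨e1, e2, e3, -, e5⟩ := hT y hy.1
  refine ⟨?_, e2, e3, e5⟩
  rw [hy.2] at e1
  refine e1.trans ?_
  abel

theorem maps {N N3 : ℕ} {w v1 v2 v3 : E} {T : Finset E} {a b c : E → ℤ}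
    (hT : InBox T N N3 w v1 v2 v3 a b c) : ∀ y ∈ T, c y ∈ Finset.Icc (-(N3 : ℤ)) N3 := by
  intro y hy
  obtain ⟨-, -, -, e4, -⟩ := hT y hy
  rw [Finset.mem_Icc]
  exact abs_le.mp e4

theorem card_Icc (N3 : ℕ) : (Finset.Icc (-(N3 : ℤ)) N3).card = 2 * N3 + 1 := by
  rw [Int.card_Icc]
  omega

/-- every three-dimensional progression -/
theorem box_all {N D N3 : ℕ} (hN : 1 ≤ N)
    (hD : ∀ M : ℕ, 0 < M → M ≤ 34 * (720 * N ^ 12) ^ 4 → M.divisors.card ≤ D)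
    {w v1 v2 v3 : E} {T : Finset E} {a b c : E → ℤ} (hT : InBox T N N3 w v1 v2 v3 a b c) :
    T.card ≤ (25 * D ^ 2 + 4) * (2 * N3 + 1) := by
  classical
  have h1 := Finset.card_le_mul_card_image_of_maps_to (maps hT) (25 * D ^ 2 + 4)
    (fun s _ => (fiber hN hD hT s).1)
  rw [card_Icc] at h1
  exact h1

/-- three full slices force a rational Gram matrix. -/
theorem three_slices {w v1 v2 v3 : E} {s1 s2 s3 : ℤ} (h12 : s1 ≠ s2) (h13 : s1 ≠ s3)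
    (h23 : s2 ≠ s3)
    (hq : ∀ s ∈ ({s1, s2, s3} : Set ℤ), ∃ q : Fin 6 → ℚ, 0 < ‖v1‖ ^ 2 ∧
      ∀ j, coef (w + (s : ℝ) • v3) v1 v2 j = ‖v1‖ ^ 2 * (q j : ℝ)) : RatGram ![v1, v2, v3] := by
  obtain ⟨q1, hv1, hq1⟩ := hq s1 (by simp)
  obtain ⟨q2, -, hq2⟩ := hq s2 (by simp)
  obtain ⟨q3, -, hq3⟩ := hq s3 (by simp)
  have e12 : (s1 : ℝ) - s2 ≠ 0 := by
    rw [sub_ne_zero]
    exact_mod_cast h12
  have e13 : (s1 : ℝ) - s3 ≠ 0 := by
    rw [sub_ne_zero]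
    exact_mod_cast h13
  have e23 : (s2 : ℝ) - s3 ≠ 0 := by
    rw [sub_ne_zero]
    exact_mod_cast h23
  have c1 : ∀ (s : ℤ) (q : Fin 6 → ℚ),
      (∀ j, coef (w + (s : ℝ) • v3) v1 v2 j = ‖v1‖ ^ 2 * (q j : ℝ)) →
      2 * ⟪v1, v2⟫ = ‖v1‖ ^ 2 * (q 1 : ℝ) ∧ ‖v2‖ ^ 2 = ‖v1‖ ^ 2 * (q 2 : ℝ) ∧
      2 * (⟪w, v1⟫ + s * ⟪v3, v1⟫) = ‖v1‖ ^ 2 * (q 3 : ℝ) ∧
      2 * (⟪w, v2⟫ + s * ⟪v3, v2⟫) = ‖v1‖ ^ 2 * (q 4 : ℝ) ∧
      ‖w‖ ^ 2 + 2 * (s * ⟪w, v3⟫) + s ^ 2 * ‖v3‖ ^ 2 - 1 = ‖v1‖ ^ 2 * (q 5 : ℝ) := by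
    intro s q h
    refine ⟨h 1, h 2, ?_, ?_, ?_⟩
    · have := h 3
      have h3 : coef (w + (s : ℝ) • v3) v1 v2 3 = 2 * ⟪w + (s : ℝ) • v3, v1⟫ := rfl
      rw [h3, inner_add_left, real_inner_smul_left] at this
      exact this
    · have := h 4
      have h3 : coef (w + (s : ℝ) • v3) v1 v2 4 = 2 * ⟪w + (s : ℝ) • v3, v2⟫ := rfl
      rw [h3, inner_add_left, real_inner_smul_left] at this
      exact this
    · have := h 5
      have h3 : coef (w + (s : ℝ) • v3) v1 v2 5 = ‖w + (s : ℝ) • v3‖ ^ 2 - 1 := rfl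
      rw [h3, norm_add_sq_real, inner_smul_right, norm_smul, mul_pow, Real.norm_eq_abs,
        sq_abs] at this
      exact this
  obtain ⟨a1, a2, a3, a4, a5⟩ := c1 s1 q1 hq1
  obtain ⟨b1, b2, b3, b4, b5⟩ := c1 s2 q2 hq2
  obtain ⟨d1, d2, d3, d4, d5⟩ := c1 s3 q3 hq3
  set G : ℝ := ‖v1‖ ^ 2 with hG
  have g12 : ⟪v1, v2⟫ = G * ((q1 1 / 2 : ℚ) : ℝ) := by
    push_cast
    linarith
  have g22 : ⟪v2, v2⟫ = G * ((q1 2 : ℚ) : ℝ) := by
    rw [real_inner_self_eq_norm_sq]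
    exact a2
  have g31 : ⟪v3, v1⟫ = G * (((q1 3 - q2 3) / (2 * ((s1 : ℚ) - s2)) : ℚ) : ℝ) := by
    push_cast
    rw [mul_div_assoc', eq_div_iff (mul_ne_zero two_ne_zero e12)]
    linear_combination a3 - b3
  have g32 : ⟪v3, v2⟫ = G * (((q1 4 - q2 4) / (2 * ((s1 : ℚ) - s2)) : ℚ) : ℝ) := by
    push_cast
    rw [mul_div_assoc', eq_div_iff (mul_ne_zero two_ne_zero e12)]
    linear_combination a4 - b4
  have g33 : ⟪v3, v3⟫ = G * (((q1 5 * ((s2 : ℚ) - s3) - q2 5 * ((s1 : ℚ) - s3) +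
      q3 5 * ((s1 : ℚ) - s2)) / (((s1 : ℚ) - s2) * ((s1 : ℚ) - s3) * ((s2 : ℚ) - s3)) : ℚ) : ℝ) := by
    push_cast
    rw [real_inner_self_eq_norm_sq, mul_div_assoc', eq_div_iff (mul_ne_zero (mul_ne_zero e12 e13) e23)]
    linear_combination ((s2 : ℝ) - s3) * a5 - ((s1 : ℝ) - s3) * b5 + ((s1 : ℝ) - s2) * d5
  have g11 : ⟪v1, v1⟫ = G * ((1 : ℚ) : ℝ) := by
    rw [real_inner_self_eq_norm_sq, hG]
    push_cast
    ring
  generalize ((q1 1 / 2 : ℚ)) = x12 at g12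
  generalize ((q1 3 - q2 3) / (2 * ((s1 : ℚ) - s2)) : ℚ) = x31 at g31
  generalize ((q1 4 - q2 4) / (2 * ((s1 : ℚ) - s2)) : ℚ) = x32 at g32
  generalize ((q1 5 * ((s2 : ℚ) - s3) - q2 5 * ((s1 : ℚ) - s3) +
      q3 5 * ((s1 : ℚ) - s2)) / (((s1 : ℚ) - s2) * ((s1 : ℚ) - s3) * ((s2 : ℚ) - s3)) : ℚ) = x33
      at g33
  refine ⟨G, ![![1, x12, x31], ![x12, q1 2, x32], ![x31, x32, x33]], ?_⟩
  intro i j
  fin_cases i <;> fin_cases j
  · exact g11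
  · exact g12
  · change ⟪v1, v3⟫ = G * (x31 : ℝ)
    rw [real_inner_comm]
    exact g31
  · change ⟪v2, v1⟫ = G * (x12 : ℝ)
    rw [real_inner_comm]
    exact g12
  · exact g22
  · change ⟪v2, v3⟫ = G * (x32 : ℝ)
    rw [real_inner_comm]
    exact g32
  · exact g31
  · exact g32
  · exact g33

/-- progressions with an irrational Gram matrix -/
theorem box_irr {N D N3 : ℕ} (hN : 1 ≤ N)
    (hD : ∀ M : ℕ, 0 < M → M ≤ 34 * (720 * N ^ 12) ^ 4 → M.divisors.card ≤ D)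
    {w v1 v2 v3 : E} {T : Finset E} {a b c : E → ℤ} (hT : InBox T N N3 w v1 v2 v3 a b c)
    (hirr : ¬ RatGram ![v1, v2, v3]) :
    T.card ≤ 4 * (2 * N3 + 1) + 2 * (25 * D ^ 2 + 4) := by
  classical
  set B : Finset ℤ := (Finset.Icc (-(N3 : ℤ)) N3).filter
    (fun s => 5 ≤ (T.filter (fun y => c y = s)).card) with hB
  have hB2 : B.card ≤ 2 := by
    by_contra h
    push Not at h
    obtain ⟨s1, h1, s2, h2, s3, h3, h12, h13, h23⟩ := Finset.two_lt_card.mp h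
    apply hirr
    refine three_slices (w := w) h12 h13 h23 ?_
    intro s hs
    have hsB : s ∈ B := by
      rcases hs with rfl | rfl | rfl
      · exact h1
      · exact h2
      · exact h3
    rw [hB, Finset.mem_filter] at hsB
    exact (fiber hN hD hT s).2 hsB.2
  have h1 := Finset.card_eq_sum_card_fiberwise (s := T) (t := Finset.Icc (-(N3 : ℤ)) N3) (f := c)
    (maps hT)
  rw [h1]
  have h2 : ∀ s ∈ Finset.Icc (-(N3 : ℤ)) N3, (T.filter (fun y => c y = s)).card ≤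
      4 + if 5 ≤ (T.filter (fun y => c y = s)).card then 25 * D ^ 2 + 4 else 0 := by
    intro s _
    split_ifs with h
    · have := (fiber hN hD hT s).1
      omega
    · omega
  refine (Finset.sum_le_sum h2).trans ?_
  rw [Finset.sum_add_distrib, Finset.sum_const, card_Icc, ← Finset.sum_filter, Finset.sum_const,
    smul_eq_mul, smul_eq_mul]
  have h3 : B.card * (25 * D ^ 2 + 4) ≤ 2 * (25 * D ^ 2 + 4) := Nat.mul_le_mul_right _ hB2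
  rw [hB] at h3
  omega

end Pool.Agent.helper21.UD
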