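import Pool.Agent.helper21.UD.Rep

/-!
# MP_6cfeb2_co: integer points in a box on a real ellipse

A real positive definite conic contains at most `25 D² + 4` integer points of the box `|x|, |y| ≤ N`, where `D` bounds
`τ(M)` for `M ≤ 34 (720 N¹²)⁴`.
-/

set_option autoImplicit false

namespace Pool.Agent.helper21.UD

/-- the conic with coefficients `g` at the real point `(x, y)` -/
def con (g : Fin 6 → ℝ) (x y : ℝ) : ℝ :=
  g 0 * x ^ 2 + g 1 * (x * y) + g 2 * y ^ 2 + g 3 * x + g 4 * y + g 5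

/-- orientation -/
def ori {R : Type} [CommRing R] (P Q S : R × R) : R :=
  (Q.1 - P.1) * (S.2 - P.2) - (Q.2 - P.2) * (S.1 - P.1)

theorem quad_pos {a b c : ℝ} (ha : 0 < a) (hΔ : 0 < 4 * a * c - b ^ 2) {x y : ℝ}
    (hxy : x ≠ 0 ∨ y ≠ 0) : 0 < a * x ^ 2 + b * (x * y) + c * y ^ 2 := by
  have e1 : 4 * a * (a * x ^ 2 + b * (x * y) + c * y ^ 2) =
      (2 * a * x + b * y) ^ 2 + (4 * a * c - b ^ 2) * y ^ 2 := by ring
  have h : 0 < 4 * a * (a * x ^ 2 + b * (x * y) + c * y ^ 2) := by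
    rw [e1]
    by_cases hy : y = 0
    · subst hy
      have hx : x ≠ 0 := by
        rcases hxy with h | h
        · exact h
        · exact absurd rfl h
      have : 0 < (2 * a * x) ^ 2 := by positivity
      simpa using this
    · have : 0 < (4 * a * c - b ^ 2) * y ^ 2 := by positivity
      nlinarith [sq_nonneg (2 * a * x + b * y)]
  exact (mul_pos_iff_of_pos_left (by positivity)).mp h

/-- no three collinear points on a positive definite conic. -/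
theorem no_three {g : Fin 6 → ℝ} (h0 : 0 < g 0) (hΔ : 0 < 4 * g 0 * g 2 - g 1 ^ 2)
    {P Q S : ℝ × ℝ} (hP : con g P.1 P.2 = 0) (hQ : con g Q.1 Q.2 = 0) (hS : con g S.1 S.2 = 0)
    (hPQ : P ≠ Q) (hPS : P ≠ S) (hQS : Q ≠ S) : ori P Q S ≠ 0 := by
  intro ho
  have hd : Q.1 - P.1 ≠ 0 ∨ Q.2 - P.2 ≠ 0 := by
    by_contra h
    push Not at h
    exact hPQ (Prod.ext (by linarith [h.1]) (by linarith [h.2]))
  have hq := quad_pos h0 hΔ hd
  obtain ⟨t, ht1, ht2⟩ : ∃ t : ℝ, S.1 = P.1 + t * (Q.1 - P.1) ∧ S.2 = P.2 + t * (Q.2 - P.2) := by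
    unfold ori at ho
    rcases hd with hd | hd
    · refine ⟨(S.1 - P.1) / (Q.1 - P.1), ?_, ?_⟩
      · field_simp
        ring
      · field_simp
        linarith
    · refine ⟨(S.2 - P.2) / (Q.2 - P.2), ?_, ?_⟩
      · field_simp
        linarith
      · field_simp
        ring
  unfold con at hP hQ hS
  rw [ht1, ht2] at hS
  have e1 : (g 0 * (Q.1 - P.1) ^ 2 + g 1 * ((Q.1 - P.1) * (Q.2 - P.2)) + g 2 * (Q.2 - P.2) ^ 2) *
      (t * (t - 1)) = 0 := by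
    linear_combination hS - t * hQ - (1 - t) * hP
  rcases mul_eq_zero.mp e1 with h | h
  · exact hq.ne' h
  rcases mul_eq_zero.mp h with h | h
  · rw [h] at ht1 ht2
    exact hPS (Prod.ext (by rw [ht1]; ring) (by rw [ht2]; ring))
  · have h' : t = 1 := by linarith
    rw [h'] at ht1 ht2
    exact hQS (Prod.ext (by rw [ht1]; ring) (by rw [ht2]; ring))

/-- the monomials -/
def nu (z : ℤ × ℤ) : Fin 6 → ℤ := ![z.1 ^ 2, z.1 * z.2, z.2 ^ 2, z.1, z.2, 1]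

/-- the matrix -/
def mat (p : Fin 5 → ℤ × ℤ) : Matrix (Fin 6) (Fin 6) ℤ :=
  Matrix.of ![nu (p 0), nu (p 1), nu (p 2), nu (p 3), nu (p 4), ![1, 0, 0, 0, 0, 0]]

theorem dep_zero {w0 w1 w2 w3 w4 : ℤ} {p : Fin 5 → ℤ × ℤ}
    (hcol : ∀ j : Fin 6, w0 * nu (p 0) j + w1 * nu (p 1) j + w2 * nu (p 2) j + w3 * nu (p 3) j +
      w4 * nu (p 4) j = 0)
    (hori : ∀ a b c : Fin 5, a ≠ b → a ≠ c → b ≠ c → ori (p a) (p b) (p c) ≠ 0) :
    w0 = 0 ∧ w1 = 0 ∧ w2 = 0 ∧ w3 = 0 ∧ w4 = 0 := by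
  have h0 := hcol 0
  have h1 := hcol 1
  have h2 := hcol 2
  have h3 := hcol 3
  have h4 := hcol 4
  have h5 := hcol 5
  simp only [nu, Matrix.cons_val_zero, Matrix.cons_val_one, Matrix.cons_val] at h0 h1 h2 h3 h4 h5
  have lin : ∀ a b c a' b' c' : ℤ,
      w0 * ((a * (p 0).1 + b * (p 0).2 + c) * (a' * (p 0).1 + b' * (p 0).2 + c')) +
      w1 * ((a * (p 1).1 + b * (p 1).2 + c) * (a' * (p 1).1 + b' * (p 1).2 + c')) +
      w2 * ((a * (p 2).1 + b * (p 2).2 + c) * (a' * (p 2).1 + b' * (p 2).2 + c')) +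
      w3 * ((a * (p 3).1 + b * (p 3).2 + c) * (a' * (p 3).1 + b' * (p 3).2 + c')) +
      w4 * ((a * (p 4).1 + b * (p 4).2 + c) * (a' * (p 4).1 + b' * (p 4).2 + c')) = 0 := by
    intro a b c a' b' c'
    linear_combination (a * a') * h0 + (a * b' + b * a') * h1 + (b * b') * h2 +
      (a * c' + c * a') * h3 + (b * c' + c * b') * h4 + (c * c') * h5
  have ol : ∀ A B S : ℤ × ℤ, ori A B S =
      (-(B.2 - A.2)) * S.1 + (B.1 - A.1) * S.2 + ((B.2 - A.2) * A.1 - (B.1 - A.1) * A.2) := by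
    intro A B S
    unfold ori
    ring
  have gen : ∀ A B C D : ℤ × ℤ,
      w0 * (ori A B (p 0) * ori C D (p 0)) + w1 * (ori A B (p 1) * ori C D (p 1)) +
      w2 * (ori A B (p 2) * ori C D (p 2)) + w3 * (ori A B (p 3) * ori C D (p 3)) +
      w4 * (ori A B (p 4) * ori C D (p 4)) = 0 := by
    intro A B C D
    simp only [ol]
    exact lin _ _ _ _ _ _
  have oa : ∀ A B : ℤ × ℤ, ori A B A = 0 := by
    intro A B
    unfold ori
    ring
  have ob : ∀ A B : ℤ × ℤ, ori A B B = 0 := by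
    intro A B
    unfold ori
    ring
  have fin : ∀ (w : ℤ) (a b c d k : Fin 5), a ≠ b → a ≠ k → b ≠ k → c ≠ d → c ≠ k → d ≠ k →
      w * (ori (p a) (p b) (p k) * ori (p c) (p d) (p k)) = 0 → w = 0 := by
    intro w a b c d k h1 h2 h3 h4 h5 h6 h
    rcases mul_eq_zero.mp h with h | h
    · exact h
    · rcases mul_eq_zero.mp h with h | h
      · exact absurd h (hori a b k h1 h2 h3)
      · exact absurd h (hori c d k h4 h5 h6)
  refine ⟨?_, ?_, ?_, ?_, ?_⟩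
  · refine fin w0 1 2 3 4 0 (by decide) (by decide) (by decide) (by decide) (by decide) (by decide) ?_
    have := gen (p 1) (p 2) (p 3) (p 4)
    simpa only [oa, ob, mul_zero, zero_mul, add_zero, zero_add] using this
  · refine fin w1 0 2 3 4 1 (by decide) (by decide) (by decide) (by decide) (by decide) (by decide) ?_
    have := gen (p 0) (p 2) (p 3) (p 4)
    simpa only [oa, ob, mul_zero, zero_mul, add_zero, zero_add] using this
  · refine fin w2 0 1 3 4 2 (by decide) (by decide) (by decide) (by decide) (by decide) (by decide) ?_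
    have := gen (p 0) (p 1) (p 3) (p 4)
    simpa only [oa, ob, mul_zero, zero_mul, add_zero, zero_add] using this
  · refine fin w3 0 1 2 4 3 (by decide) (by decide) (by decide) (by decide) (by decide) (by decide) ?_
    have := gen (p 0) (p 1) (p 2) (p 4)
    simpa only [oa, ob, mul_zero, zero_mul, add_zero, zero_add] using this
  · refine fin w4 0 1 2 3 4 (by decide) (by decide) (by decide) (by decide) (by decide) (by decide) ?_
    have := gen (p 0) (p 1) (p 2) (p 3)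
    simpa only [oa, ob, mul_zero, zero_mul, add_zero, zero_add] using this

theorem det_ne {g : Fin 6 → ℝ} (h0 : 0 < g 0) (hΔ : 0 < 4 * g 0 * g 2 - g 1 ^ 2)
    {p : Fin 5 → ℤ × ℤ} (hp : Function.Injective p)
    (hg : ∀ i, con g ((p i).1 : ℝ) ((p i).2 : ℝ) = 0) : (mat p).det ≠ 0 := by
  intro hdet
  obtain ⟨w, hw, hwA⟩ := Matrix.exists_vecMul_eq_zero_iff.mpr hdet
  have hcol : ∀ j : Fin 6, w 0 * nu (p 0) j + w 1 * nu (p 1) j + w 2 * nu (p 2) j +
      w 3 * nu (p 3) j + w 4 * nu (p 4) j + w 5 * (![1, 0, 0, 0, 0, 0] : Fin 6 → ℤ) j = 0 := by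
    intro j
    have h := congrFun hwA j
    rw [Matrix.vecMul, dotProduct, Fin.sum_univ_six] at h
    exact h
  have hw5 : w 5 = 0 := by
    have h : ∀ j : Fin 6, (w 0 : ℝ) * (nu (p 0) j : ℝ) + (w 1 : ℝ) * (nu (p 1) j : ℝ) +
        (w 2 : ℝ) * (nu (p 2) j : ℝ) + (w 3 : ℝ) * (nu (p 3) j : ℝ) + (w 4 : ℝ) * (nu (p 4) j : ℝ) +
        (w 5 : ℝ) * (((![1, 0, 0, 0, 0, 0] : Fin 6 → ℤ) j : ℤ) : ℝ) = 0 := by
      intro j
      exact_mod_cast hcol j
    have a0 := h 0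
    have a1 := h 1
    have a2 := h 2
    have a3 := h 3
    have a4 := h 4
    have a5 := h 5
    simp only [nu, Matrix.cons_val_zero, Matrix.cons_val_one, Matrix.cons_val, Int.cast_pow,
      Int.cast_mul, Int.cast_one, Int.cast_zero, mul_zero, add_zero, mul_one] at a0 a1 a2 a3 a4 a5
    have g0 := hg 0
    have g1 := hg 1
    have g2 := hg 2
    have g3 := hg 3
    have g4 := hg 4
    unfold con at g0 g1 g2 g3 g4
    have : (w 5 : ℝ) * g 0 = 0 := by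
      linear_combination g 0 * a0 + g 1 * a1 + g 2 * a2 + g 3 * a3 + g 4 * a4 + g 5 * a5 -
        w 0 * g0 - w 1 * g1 - w 2 * g2 - w 3 * g3 - w 4 * g4
    rcases mul_eq_zero.mp this with h | h
    · exact_mod_cast h
    · exact absurd h h0.ne'
  have hori : ∀ a b c : Fin 5, a ≠ b → a ≠ c → b ≠ c → ori (p a) (p b) (p c) ≠ 0 := by
    intro a b c hab hac hbc ho
    have hc : ∀ z z' : ℤ × ℤ, z ≠ z' → ((z.1 : ℝ), (z.2 : ℝ)) ≠ ((z'.1 : ℝ), (z'.2 : ℝ)) := by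
      intro z z' hz h
      obtain ⟨e1, e2⟩ := Prod.mk.inj h
      exact hz (Prod.ext (by exact_mod_cast e1) (by exact_mod_cast e2))
    refine no_three (P := (((p a).1 : ℝ), ((p a).2 : ℝ))) (Q := (((p b).1 : ℝ), ((p b).2 : ℝ)))
      (S := (((p c).1 : ℝ), ((p c).2 : ℝ))) h0 hΔ (hg a) (hg b) (hg c)
      (hc _ _ fun h => hab (hp h)) (hc _ _ fun h => hac (hp h)) (hc _ _ fun h => hbc (hp h)) ?_
    unfold ori at ho ⊢
    dsimp only
    exact_mod_cast ho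
  have hz := dep_zero (w0 := w 0) (w1 := w 1) (w2 := w 2) (w3 := w 3) (w4 := w 4) (p := p) (by
    intro j
    have := hcol j
    rw [hw5] at this
    linarith) hori
  apply hw
  funext i
  fin_cases i
  · exact hz.1
  · exact hz.2.1
  · exact hz.2.2.1
  · exact hz.2.2.2.1
  · exact hz.2.2.2.2
  · exact hw5

/-- the integral conic -/
def intc (p : Fin 5 → ℤ × ℤ) (j : Fin 6) : ℤ := (mat p).adjugate j 5

theorem intc_prop {g : Fin 6 → ℝ} {p : Fin 5 → ℤ × ℤ}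
    (hg : ∀ i, con g ((p i).1 : ℝ) ((p i).2 : ℝ) = 0) (j : Fin 6) :
    ((mat p).det : ℝ) * g j = g 0 * (intc p j : ℝ) := by
  set A : Matrix (Fin 6) (Fin 6) ℝ := (mat p).map (Int.castRingHom ℝ) with hA
  have h1 : A.mulVec g = fun i => if i = 5 then g 0 else 0 := by
    funext i
    rw [Matrix.mulVec, dotProduct, Fin.sum_univ_six]
    have g0 := hg 0
    have g1 := hg 1
    have g2 := hg 2
    have g3 := hg 3
    have g4 := hg 4
    unfold con at g0 g1 g2 g3 g4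
    fin_cases i <;>
      simp [hA, mat, nu] <;> linarith
  have h2 : (A.adjugate).mulVec (A.mulVec g) = A.det • g := by
    rw [Matrix.mulVec_mulVec, Matrix.adjugate_mul, Matrix.smul_mulVec, Matrix.one_mulVec]
  have h3 := congrFun h2 j
  rw [h1, Matrix.mulVec, dotProduct, Pi.smul_apply, smul_eq_mul] at h3
  simp only [mul_ite, mul_zero, Finset.sum_ite_eq', Finset.mem_univ, if_true] at h3
  have h4 : A.det = ((mat p).det : ℝ) := by
    rw [hA]
    exact (RingHom.map_det (Int.castRingHom ℝ) (mat p)).symm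
  have h5 : A.adjugate j 5 = (intc p j : ℝ) := by
    have := RingHom.map_adjugate (Int.castRingHom ℝ) (mat p)
    rw [hA, ← RingHom.mapMatrix_apply, ← this]
    rfl
  rw [← h4, ← h3, h5]
  ring

theorem intc_zero (p : Fin 5 → ℤ × ℤ) : intc p 0 = (mat p).det := by
  have h := congrFun (congrFun (Matrix.mul_adjugate (mat p)) 5) 5
  rw [Matrix.mul_apply, Fin.sum_univ_six] at h
  simp [mat] at h
  exact h

theorem intc_bound {p : Fin 5 → ℤ × ℤ} {N : ℕ} (hN : 1 ≤ N)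
    (hp : ∀ i, |(p i).1| ≤ N ∧ |(p i).2| ≤ N) (j : Fin 6) : |intc p j| ≤ 720 * (N : ℤ) ^ 12 := by
  have hN' : (1 : ℤ) ≤ N := by exact_mod_cast hN
  have h1 : (1 : ℤ) ≤ (N : ℤ) ^ 2 := one_le_pow₀ hN'
  have h2 : (N : ℤ) ≤ (N : ℤ) ^ 2 := by nlinarith
  have hnu : ∀ (i : Fin 5) (j : Fin 6), |nu (p i) j| ≤ (N : ℤ) ^ 2 := by
    intro i j
    obtain ⟨hx, hy⟩ := hp i
    have hx0 := abs_nonneg (p i).1
    have hy0 := abs_nonneg (p i).2
    fin_cases j
    · change |(p i).1 ^ 2| ≤ _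
      rw [abs_pow]
      exact pow_le_pow_left₀ hx0 hx 2
    · change |(p i).1 * (p i).2| ≤ _
      rw [abs_mul, pow_two]
      exact mul_le_mul hx hy hy0 (by positivity)
    · change |(p i).2 ^ 2| ≤ _
      rw [abs_pow]
      exact pow_le_pow_left₀ hy0 hy 2
    · exact hx.trans h2
    · exact hy.trans h2
    · change |(1 : ℤ)| ≤ _
      rw [abs_one]
      exact h1
  have hmat : ∀ i j, |mat p i j| ≤ (N : ℤ) ^ 2 := by
    intro i j
    fin_cases i
    · exact hnu 0 j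
    · exact hnu 1 j
    · exact hnu 2 j
    · exact hnu 3 j
    · exact hnu 4 j
    · change |(![1, 0, 0, 0, 0, 0] : Fin 6 → ℤ) j| ≤ _
      fin_cases j <;> simp [h1]
  have hsingle : ∀ i : Fin 6, |(Pi.single j 1 : Fin 6 → ℤ) i| ≤ (N : ℤ) ^ 2 := by
    intro i
    by_cases hi : i = j
    · subst hi
      rw [Pi.single_eq_same, abs_one]
      exact h1
    · rw [Pi.single_eq_of_ne hi, abs_zero]
      positivity
  unfold intc
  rw [Matrix.adjugate_apply]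
  have h3 := Matrix.det_le (A := (mat p).updateRow 5 (Pi.single j 1)) (abv := AbsoluteValue.abs)
    (x := (N : ℤ) ^ 2) (by
      intro i k
      change |(mat p).updateRow 5 (Pi.single j 1) i k| ≤ _
      rw [Matrix.updateRow_apply]
      split_ifs
      · exact hsingle k
      · exact hmat i k)
  have h4 : (AbsoluteValue.abs ((mat p).updateRow 5 (Pi.single j 1)).det : ℤ) =
      |((mat p).updateRow 5 (Pi.single j 1)).det| := rfl
  rw [h4] at h3
  refine h3.trans (le_of_eq ?_)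
  rw [Fintype.card_fin]
  simp [Nat.factorial]
  ring

/-- completing the square -/
theorem sq_complete (g : Fin 6 → ℤ) (x y : ℤ)
    (h : g 0 * x ^ 2 + g 1 * (x * y) + g 2 * y ^ 2 + g 3 * x + g 4 * y + g 5 = 0) :
    ((4 * g 0 * g 2 - g 1 ^ 2) * y + (2 * g 0 * g 4 - g 1 * g 3)) ^ 2 +
      (4 * g 0 * g 2 - g 1 ^ 2) * (2 * g 0 * x + g 1 * y + g 3) ^ 2 =
    (2 * g 0 * g 4 - g 1 * g 3) ^ 2 - (4 * g 0 * g 2 - g 1 ^ 2) * (4 * g 0 * g 5 - g 3 ^ 2) := by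
  linear_combination (4 * g 0 * (4 * g 0 * g 2 - g 1 ^ 2)) * h

/-- integer points on an integral ellipse. -/
theorem int_count {c : Fin 6 → ℤ} (hc0 : c 0 ≠ 0) (hΔ' : 0 < 4 * c 0 * c 2 - c 1 ^ 2) {H : ℤ}
    (hH0 : 0 ≤ H) (hbound : ∀ j, |c j| ≤ H) {D : ℕ}
    (hD : ∀ M : ℕ, 0 < M → (M : ℤ) ≤ 34 * H ^ 4 → M.divisors.card ≤ D) (T : Finset (ℤ × ℤ))
    (hint : ∀ z ∈ T, c 0 * z.1 ^ 2 + c 1 * (z.1 * z.2) + c 2 * z.2 ^ 2 + c 3 * z.1 + c 4 * z.2 +
      c 5 = 0) : T.card ≤ 25 * D ^ 2 + 4 := by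
  classical
  obtain ⟨Δ, hΔdef⟩ : ∃ Δ : ℤ, Δ = 4 * c 0 * c 2 - c 1 ^ 2 := ⟨_, rfl⟩
  obtain ⟨E, hEdef⟩ : ∃ E : ℤ, E = 2 * c 0 * c 4 - c 1 * c 3 := ⟨_, rfl⟩
  obtain ⟨M, hMdef⟩ : ∃ M : ℤ, M = E ^ 2 - Δ * (4 * c 0 * c 5 - c 3 ^ 2) := ⟨_, rfl⟩
  rw [← hΔdef] at hΔ'
  have himg : (T.image (fun z => (Δ * z.2 + E, 2 * c 0 * z.1 + c 1 * z.2 + c 3))).card =
      T.card := by
    refine Finset.card_image_of_injOn ?_
    intro z _ z' _ hzz
    obtain ⟨e1, e2⟩ := Prod.mk.inj hzz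
    have e3 : z.2 = z'.2 := by
      have : Δ * z.2 = Δ * z'.2 := by linarith
      exact mul_left_cancel₀ hΔ'.ne' this
    have e4 : z.1 = z'.1 := by
      have : (2 * c 0) * z.1 = (2 * c 0) * z'.1 := by
        rw [e3] at e2
        linarith
      exact mul_left_cancel₀ (mul_ne_zero two_ne_zero hc0) this
    exact Prod.ext e4 e3
  have hrep : ∀ z ∈ T.image (fun z => (Δ * z.2 + E, 2 * c 0 * z.1 + c 1 * z.2 + c 3)),
      z.1 ^ 2 + Δ * z.2 ^ 2 = M := by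
    intro z hz
    rw [Finset.mem_image] at hz
    obtain ⟨y, hy, rfl⟩ := hz
    have := sq_complete c y.1 y.2 (hint y hy)
    rw [← hΔdef, ← hEdef, ← hMdef] at this
    exact this
  by_cases hM : M = 0
  · -- at most one point
    have h1 : T.card ≤ 1 := by
      rw [← himg, Finset.card_le_one]
      intro a ha b hb
      have key : ∀ z ∈ T.image (fun z => (Δ * z.2 + E, 2 * c 0 * z.1 + c 1 * z.2 + c 3)),
          z = (0, 0) := by
        intro z hz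
        have h1 := hrep z hz
        rw [hM] at h1
        have h5 : 0 ≤ Δ * z.2 ^ 2 := mul_nonneg hΔ'.le (sq_nonneg _)
        have h6 : 0 ≤ z.1 ^ 2 := sq_nonneg _
        have h2 : z.1 ^ 2 = 0 := by linarith
        have h3 : Δ * z.2 ^ 2 = 0 := by linarith
        have h4 : z.2 ^ 2 = 0 := (mul_eq_zero.mp h3).resolve_left hΔ'.ne'
        exact Prod.ext (pow_eq_zero_iff two_ne_zero |>.mp h2) (pow_eq_zero_iff two_ne_zero |>.mp h4)
      rw [key a ha, key b hb]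
    omega
  · have h1 := card_rep hΔ' hM _ hrep
    rw [himg] at h1
    have prod : ∀ a b : ℤ, |a| ≤ H → |b| ≤ H → |a * b| ≤ H ^ 2 := by
      intro a b ha hb
      rw [abs_mul, pow_two]
      exact mul_le_mul ha hb (abs_nonneg _) hH0
    have hH2 : 0 ≤ H ^ 2 := sq_nonneg H
    have q1 : |E| ≤ 3 * H ^ 2 := by
      have t1 := abs_le.mp (prod _ _ (hbound 0) (hbound 4))
      have t2 := abs_le.mp (prod _ _ (hbound 1) (hbound 3))
      rw [abs_le, hEdef]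
      constructor <;> linarith [t1.1, t1.2, t2.1, t2.2]
    have q2 : |Δ| ≤ 5 * H ^ 2 := by
      have t1 := abs_le.mp (prod _ _ (hbound 0) (hbound 2))
      have t2 := abs_le.mp (prod _ _ (hbound 1) (hbound 1))
      rw [abs_le, hΔdef]
      constructor <;> linarith [t1.1, t1.2, t2.1, t2.2]
    have q3 : |4 * c 0 * c 5 - c 3 ^ 2| ≤ 5 * H ^ 2 := by
      have t1 := abs_le.mp (prod _ _ (hbound 0) (hbound 5))
      have t2 := abs_le.mp (prod _ _ (hbound 3) (hbound 3))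
      rw [abs_le]
      constructor <;> linarith [t1.1, t1.2, t2.1, t2.2]
    have q4 : |M| ≤ 34 * H ^ 4 := by
      have r1 : |E ^ 2| ≤ 9 * H ^ 4 := by
        rw [abs_pow]
        calc |E| ^ 2 ≤ (3 * H ^ 2) ^ 2 := pow_le_pow_left₀ (abs_nonneg _) q1 2
          _ = 9 * H ^ 4 := by ring
      have r2 : |Δ * (4 * c 0 * c 5 - c 3 ^ 2)| ≤ 25 * H ^ 4 := by
        rw [abs_mul]
        calc |Δ| * |4 * c 0 * c 5 - c 3 ^ 2| ≤ (5 * H ^ 2) * (5 * H ^ 2) :=
              mul_le_mul q2 q3 (abs_nonneg _) (by linarith)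
          _ = 25 * H ^ 4 := by ring
      rw [hMdef]
      calc |E ^ 2 - Δ * (4 * c 0 * c 5 - c 3 ^ 2)| ≤ |E ^ 2| + |Δ * (4 * c 0 * c 5 - c 3 ^ 2)| :=
            abs_sub _ _
        _ ≤ 34 * H ^ 4 := by linarith
    have q5 : ((M.natAbs : ℕ) : ℤ) ≤ 34 * H ^ 4 := by
      rw [Int.natCast_natAbs]
      exact q4
    have h3 := hD M.natAbs (Int.natAbs_pos.mpr hM) q5
    have h4 : (M.natAbs.divisors.card) ^ 2 ≤ D ^ 2 := Nat.pow_le_pow_left h3 2
    omega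

/-- passing to a proportional integral conic -/
theorem prop_conic {g : Fin 6 → ℝ} (h0 : 0 < g 0) (hΔ : 0 < 4 * g 0 * g 2 - g 1 ^ 2)
    {c : Fin 6 → ℤ} (hc0 : c 0 ≠ 0) (hprop : ∀ j, (c 0 : ℝ) * g j = g 0 * (c j : ℝ)) :
    0 < 4 * c 0 * c 2 - c 1 ^ 2 ∧ ∀ x y : ℤ, con g (x : ℝ) (y : ℝ) = 0 →
      c 0 * x ^ 2 + c 1 * (x * y) + c 2 * y ^ 2 + c 3 * x + c 4 * y + c 5 = 0 := by
  have hc0R : (c 0 : ℝ) ≠ 0 := by exact_mod_cast hc0
  have e2 := hprop 2
  have e1 := hprop 1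
  have hΔR : ((c 0 : ℝ)) ^ 2 * (4 * g 0 * g 2 - g 1 ^ 2) =
      g 0 ^ 2 * (4 * (c 0 : ℝ) * (c 2 : ℝ) - (c 1 : ℝ) ^ 2) := by
    have : (c 0 : ℝ) ^ 2 * (4 * g 0 * g 2 - g 1 ^ 2) =
        4 * g 0 * (c 0 : ℝ) * ((c 0 : ℝ) * g 2) - ((c 0 : ℝ) * g 1) ^ 2 := by ring
    rw [this, e2, e1]
    ring
  refine ⟨?_, ?_⟩
  · have hc2 : 0 < (c 0 : ℝ) ^ 2 := by positivity
    have h1 : 0 < g 0 ^ 2 * (4 * (c 0 : ℝ) * (c 2 : ℝ) - (c 1 : ℝ) ^ 2) := by
      rw [← hΔR]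
      exact mul_pos hc2 hΔ
    have hg2 : 0 < g 0 ^ 2 := pow_pos h0 2
    have h2 : 0 < (4 * (c 0 : ℝ) * (c 2 : ℝ) - (c 1 : ℝ) ^ 2) :=
      (mul_pos_iff_of_pos_left hg2).mp h1
    exact_mod_cast h2
  · intro x y h1
    unfold con at h1
    have h2 : g 0 * ((c 0 : ℝ) * (x : ℝ) ^ 2 + c 1 * ((x : ℝ) * y) + c 2 * (y : ℝ) ^ 2 +
        c 3 * x + c 4 * y + c 5) = 0 := by
      linear_combination (c 0 : ℝ) * h1 - (x : ℝ) ^ 2 * hprop 0 -
        ((x : ℝ) * y) * hprop 1 - (y : ℝ) ^ 2 * hprop 2 - (x : ℝ) * hprop 3 -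
        (y : ℝ) * hprop 4 - hprop 5
    have h3 := (mul_eq_zero.mp h2).resolve_left h0.ne'
    exact_mod_cast h3

/-- integer points of a box on a real ellipse: at most `25 D² + 4`. -/
theorem conic_count {g : Fin 6 → ℝ} (h0 : 0 < g 0) (hΔ : 0 < 4 * g 0 * g 2 - g 1 ^ 2) {N D : ℕ}
    (hN : 1 ≤ N)
    (hD : ∀ M : ℕ, 0 < M → M ≤ 34 * (720 * N ^ 12) ^ 4 → M.divisors.card ≤ D)
    (T : Finset (ℤ × ℤ))
    (hT : ∀ z ∈ T, |z.1| ≤ N ∧ |z.2| ≤ N ∧ con g (z.1 : ℝ) (z.2 : ℝ) = 0) :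
    T.card ≤ 25 * D ^ 2 + 4 ∧ (5 ≤ T.card → ∃ c : Fin 6 → ℤ, c 0 ≠ 0 ∧
      ∀ j, (c 0 : ℝ) * g j = g 0 * (c j : ℝ)) := by
  classical
  by_cases h5 : T.card < 5
  · exact ⟨by omega, fun h => absurd h5 (by omega)⟩
  push Not at h5
  obtain ⟨T', hT'T, hT'5⟩ := Finset.exists_subset_card_eq h5
  obtain ⟨p, hp, hpT⟩ : ∃ p : Fin 5 → ℤ × ℤ, Function.Injective p ∧ ∀ i, p i ∈ T :=
    ⟨fun i => ((Finset.equivFinOfCardEq hT'5).symm i : ℤ × ℤ),
      Subtype.val_injective.comp (Finset.equivFinOfCardEq hT'5).symm.injective,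
      fun i => hT'T ((Finset.equivFinOfCardEq hT'5).symm i).2⟩
  have hg : ∀ i, con g ((p i).1 : ℝ) ((p i).2 : ℝ) = 0 := fun i => (hT _ (hpT i)).2.2
  have hdet := det_ne h0 hΔ hp hg
  have hprop := intc_prop hg
  have hbound := intc_bound hN (fun i => ⟨(hT _ (hpT i)).1, (hT _ (hpT i)).2.1⟩)
  rw [← intc_zero p] at hdet
  rw [← intc_zero p] at hprop
  generalize intc p = c at hdet hprop hbound
  obtain ⟨hΔ', hint⟩ := prop_conic h0 hΔ hdet hprop
  have hH0 : (0 : ℤ) ≤ 720 * (N : ℤ) ^ 12 :=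
    mul_nonneg (by norm_num) (pow_nonneg (Int.natCast_nonneg N) 12)
  refine ⟨int_count hdet hΔ' hH0 hbound ?_ T (fun z hz => hint z.1 z.2 (hT z hz).2.2),
    fun _ => ⟨c, hdet, hprop⟩⟩
  intro M hM0 hM
  refine hD M hM0 ?_
  have : (M : ℤ) ≤ ((34 * (720 * N ^ 12) ^ 4 : ℕ) : ℤ) := by
    push_cast
    exact hM
  exact_mod_cast this

end Pool.Agent.helper21.UD
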