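import Mathlib

/-!
# MP_6cfeb2_co: the divisor bound

`τ(n)^k ≤ (k^k)^(2^k) n`, and `log τ(M) ≤ C log V / log log V` for `log M ≤ A log V`.
-/

set_option autoImplicit false

namespace Pool.Agent.helper21.UD

open Real

theorem succ_le_mul_pow {k a : ℕ} (hk : 1 ≤ k) : (a + 1) ^ k ≤ k ^ k * 2 ^ a := by
  have h1 : a + 1 ≤ k * 2 ^ (a / k) := by
    have h2 : a / k + 1 ≤ 2 ^ (a / k) := Nat.lt_two_pow_self
    have h3 : a < k * (a / k + 1) := by
      have := Nat.lt_mul_div_succ a (by omega : 0 < k)
      exact this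
    calc a + 1 ≤ k * (a / k + 1) := h3
      _ ≤ k * 2 ^ (a / k) := Nat.mul_le_mul_left k h2
  calc (a + 1) ^ k ≤ (k * 2 ^ (a / k)) ^ k := Nat.pow_le_pow_left h1 k
    _ = k ^ k * 2 ^ (a / k * k) := by rw [mul_pow, ← pow_mul]
    _ ≤ k ^ k * 2 ^ a := Nat.mul_le_mul_left _ (Nat.pow_le_pow_right (by norm_num)
        (Nat.div_mul_le_self a k))

theorem tau_pow {k n : ℕ} (hk : 1 ≤ k) (hn : n ≠ 0) :
    n.divisors.card ^ k ≤ (k ^ k) ^ (2 ^ k) * n := by
  classical
  rw [Nat.card_divisors hn, ← Finset.prod_pow]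
  have h1 : ∀ p ∈ n.primeFactors, (n.factorization p + 1) ^ k ≤
      (if p < 2 ^ k then k ^ k else 1) * p ^ n.factorization p := by
    intro p hp
    have hp2 : 2 ≤ p := (Nat.prime_of_mem_primeFactors hp).two_le
    split_ifs with h
    · exact (succ_le_mul_pow hk).trans (Nat.mul_le_mul_left _ (Nat.pow_le_pow_left hp2 _))
    · rw [one_mul]
      push Not at h
      calc (n.factorization p + 1) ^ k ≤ (2 ^ n.factorization p) ^ k :=
            Nat.pow_le_pow_left Nat.lt_two_pow_self k
        _ = (2 ^ k) ^ n.factorization p := by rw [← pow_mul, ← pow_mul, mul_comm]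
        _ ≤ p ^ n.factorization p := Nat.pow_le_pow_left h _
  refine (Finset.prod_le_prod' h1).trans ?_
  rw [Finset.prod_mul_distrib]
  have h2 : ∏ p ∈ n.primeFactors, p ^ n.factorization p = n := by
    have := Nat.prod_factorization_pow_eq_self hn
    rw [Finsupp.prod, Nat.support_factorization] at this
    exact this
  rw [h2]
  refine Nat.mul_le_mul_right n ?_
  rw [Finset.prod_ite, Finset.prod_const, Finset.prod_const_one, mul_one]
  refine Nat.pow_le_pow_right (Nat.pow_pos (by omega)) ?_
  calc (n.primeFactors.filter (fun p => p < 2 ^ k)).card ≤ (Finset.range (2 ^ k)).card := by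
        refine Finset.card_le_card ?_
        intro p hp
        rw [Finset.mem_filter] at hp
        exact Finset.mem_range.mpr hp.2
    _ = 2 ^ k := Finset.card_range _

theorem log_tau {k n : ℕ} (hk : 1 ≤ k) (hn : n ≠ 0) :
    Real.log n.divisors.card ≤ 2 ^ k * Real.log k + Real.log n / k := by
  have hk0 : (0 : ℝ) < k := by exact_mod_cast hk
  have hn0 : (0 : ℝ) < n := by exact_mod_cast Nat.pos_of_ne_zero hn
  have hd0 : (0 : ℝ) < n.divisors.card := by
    have : 0 < n.divisors.card := Finset.card_pos.mpr ⟨1, Nat.one_mem_divisors.mpr hn⟩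
    exact_mod_cast this
  have h1 : ((n.divisors.card : ℝ)) ^ k ≤ ((k : ℝ) ^ k) ^ (2 ^ k) * n := by
    exact_mod_cast tau_pow hk hn
  have h2 := Real.log_le_log (by positivity) h1
  rw [Real.log_mul (by positivity) hn0.ne', Real.log_pow, Real.log_pow, Real.log_pow] at h2
  push_cast at h2
  have h3 : (k : ℝ) * Real.log n.divisors.card ≤
      k * (2 ^ k * Real.log k + Real.log n / k) := by
    rw [mul_add, mul_div_cancel₀ _ hk0.ne']
    linarith
  exact le_of_mul_le_mul_left h3 hk0

/-- `(log L)² ≤ 16 √L` for `L ≥ 1`. -/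
theorem log_sq_le {L : ℝ} (hL : 1 ≤ L) : Real.log L ^ 2 ≤ 16 * Real.sqrt L := by
  have h1 := Real.log_le_rpow_div (x := L) (by linarith) (ε := 1 / 4) (by norm_num)
  have h0 : 0 ≤ Real.log L := Real.log_nonneg hL
  have h2 : Real.log L ≤ 4 * L ^ (1 / 4 : ℝ) := by
    calc Real.log L ≤ L ^ (1 / 4 : ℝ) / (1 / 4) := h1
      _ = 4 * L ^ (1 / 4 : ℝ) := by ring
  calc Real.log L ^ 2 ≤ (4 * L ^ (1 / 4 : ℝ)) ^ 2 := pow_le_pow_left₀ h0 h2 2
    _ = 16 * (L ^ (1 / 4 : ℝ)) ^ 2 := by ring
    _ = 16 * Real.sqrt L := by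
        rw [Real.sqrt_eq_rpow, ← Real.rpow_natCast, ← Real.rpow_mul (by linarith)]
        norm_num

/-- the divisor bound with `log log`. -/
theorem log_tau_le {A : ℝ} (hA : 0 ≤ A) : ∃ C : ℝ, 0 < C ∧ ∀ L : ℝ, 1 < L → ∀ M : ℕ, M ≠ 0 →
    Real.log M ≤ A * L → Real.log M.divisors.card ≤ C * (L / Real.log L) := by
  refine ⟨16 + 4 * A + 4 * A, by positivity, ?_⟩
  intro L hL M hM hML
  have hL0 : 0 < L := by linarith
  have hlog : 0 < Real.log L := Real.log_pos hL
  have hlog2 : 0 < Real.log 2 := Real.log_pos (by norm_num)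
  have hlog2' : Real.log 2 < 1 := by linarith [Real.log_two_lt_d9]
  have hlog2'' : 1 / 2 < Real.log 2 := by linarith [Real.log_two_gt_d9]
  have hLL : 0 < L / Real.log L := by positivity
  by_cases hs : Real.log L < 4 * Real.log 2
  · -- small case
    have h1 : Real.log M.divisors.card ≤ Real.log M := by
      refine Real.log_le_log ?_ ?_
      · have : 0 < M.divisors.card := Finset.card_pos.mpr ⟨1, Nat.one_mem_divisors.mpr hM⟩
        exact_mod_cast this
      · exact_mod_cast Nat.card_divisors_le_self M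
    have h2 : L ≤ 4 * (L / Real.log L) := by
      rw [mul_div_assoc', le_div_iff₀ hlog]
      nlinarith
    calc Real.log M.divisors.card ≤ A * L := h1.trans hML
      _ ≤ A * (4 * (L / Real.log L)) := mul_le_mul_of_nonneg_left h2 hA
      _ ≤ (16 + 4 * A + 4 * A) * (L / Real.log L) := by nlinarith
  · push Not at hs
    set x : ℝ := Real.log L / (2 * Real.log 2) with hx
    have hx2 : 2 ≤ x := by
      rw [hx, le_div_iff₀ (by positivity)]
      linarith
    set k : ℕ := ⌊x⌋₊ with hk
    have hk1 : 1 ≤ k := by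
      rw [hk]
      exact Nat.le_floor (by push_cast; linarith)
    have hkx : (k : ℝ) ≤ x := Nat.floor_le (by linarith)
    have hxk : x < k + 1 := Nat.lt_floor_add_one x
    have hk0 : (0 : ℝ) < k := by exact_mod_cast hk1
    have hkL : Real.log L ≤ 4 * k := by
      have h1 : x ≤ 2 * k := by
        have : (1 : ℝ) ≤ k := by exact_mod_cast hk1
        linarith
      have h2 : Real.log L = x * (2 * Real.log 2) := by
        rw [hx]
        field_simp
      rw [h2]
      nlinarith
    have h2k : (2 : ℝ) ^ k ≤ Real.sqrt L := by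
      have h1 : Real.log ((2 : ℝ) ^ k) ≤ Real.log (Real.sqrt L) := by
        rw [Real.log_pow, Real.log_sqrt hL0.le]
        have h2 : Real.log L / 2 = x * Real.log 2 := by
          rw [hx]
          field_simp
        rw [h2]
        exact mul_le_mul_of_nonneg_right hkx hlog2.le
      exact (Real.log_le_log_iff (by positivity) (Real.sqrt_pos.mpr hL0)).mp h1
    have hlk : Real.log k ≤ Real.log L := by
      have h1 : Real.log k ≤ k := (Real.log_le_sub_one_of_pos hk0).trans (by linarith)
      have h2 : x ≤ Real.log L := by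
        rw [hx, div_le_iff₀ (by positivity)]
        nlinarith
      linarith
    have h3 := log_tau hk1 hM
    have h4 : (2 : ℝ) ^ k * Real.log k ≤ 16 * (L / Real.log L) := by
      have h5 : (2 : ℝ) ^ k * Real.log k ≤ Real.sqrt L * Real.log L :=
        mul_le_mul h2k hlk (Real.log_natCast_nonneg k) (Real.sqrt_nonneg L)
      have h6 : Real.sqrt L * Real.log L ≤ 16 * (L / Real.log L) := by
        rw [mul_div_assoc', le_div_iff₀ hlog]
        have h7 := log_sq_le hL.le
        have h8 : Real.sqrt L * Real.sqrt L = L := Real.mul_self_sqrt hL0.le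
        have h9 := Real.sqrt_nonneg L
        calc Real.sqrt L * Real.log L * Real.log L = Real.sqrt L * Real.log L ^ 2 := by ring
          _ ≤ Real.sqrt L * (16 * Real.sqrt L) := mul_le_mul_of_nonneg_left h7 h9
          _ = 16 * L := by linear_combination 16 * h8
      exact h5.trans h6
    have h5 : Real.log M / k ≤ 4 * A * (L / Real.log L) := by
      rw [div_le_iff₀ hk0]
      have h6 : 1 ≤ 4 * (k : ℝ) / Real.log L := by
        rw [le_div_iff₀ hlog]
        linarith
      calc Real.log M ≤ A * L := hML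
        _ ≤ A * L * (4 * (k : ℝ) / Real.log L) := le_mul_of_one_le_right (by positivity) h6
        _ = 4 * A * (L / Real.log L) * k := by ring
    calc Real.log M.divisors.card ≤ 2 ^ k * Real.log k + Real.log M / k := h3
      _ ≤ 16 * (L / Real.log L) + 4 * A * (L / Real.log L) := add_le_add h4 h5
      _ ≤ (16 + 4 * A + 4 * A) * (L / Real.log L) := by nlinarith

end Pool.Agent.helper21.UD
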