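import Pool.Agent.helper21.UD.Box
import Pool.Agent.helper21.UD.Div

/-!
# MP_6cfeb2_co: unit distances and three-dimensional progressions
-/

set_option autoImplicit false

namespace Pool.Agent.helper21.UD

open RealInnerProductSpace

variable {E : Type} [NormedAddCommGroup E] [InnerProductSpace ℝ E]

theorem one_lt_log {V : ℕ} (hV : 3 ≤ V) : 1 < Real.log V := by
  have h1 : Real.exp 1 < V := by
    have h3 : (3 : ℝ) ≤ V := by exact_mod_cast hV
    linarith [Real.exp_one_lt_d9]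
  have h2 := Real.log_lt_log (Real.exp_pos 1) h1
  rwa [Real.log_exp] at h2

/-- the choice of `D`. -/
theorem exists_D : ∃ C₀ : ℝ, 0 < C₀ ∧ ∀ V : ℕ, 3 ≤ V → ∃ D : ℕ,
    (∀ M : ℕ, 0 < M → M ≤ 34 * (720 * V ^ 12) ^ 4 → M.divisors.card ≤ D) ∧
    ((25 * D ^ 2 + 4 : ℕ) : ℝ) ≤
      Real.exp (C₀ * (Real.log V / Real.log (Real.log V))) := by
  obtain ⟨C, hC, hlog⟩ := log_tau_le (A := 2962) (by norm_num)
  refine ⟨2 * C + 4, by positivity, ?_⟩
  intro V hV
  have hL : 1 < Real.log V := one_lt_log hV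
  set L : ℝ := Real.log V with hLdef
  have hlogL : 0 < Real.log L := Real.log_pos hL
  have hLL : 1 ≤ L / Real.log L := by
    rw [le_div_iff₀ hlogL, one_mul]
    linarith [Real.log_le_sub_one_of_pos (by linarith : (0 : ℝ) < L)]
  set Y : ℝ := Real.exp (C * (L / Real.log L)) with hY
  have hY1 : 1 ≤ Y := by
    rw [hY]
    exact Real.one_le_exp (by positivity)
  refine ⟨⌊Y⌋₊, ?_, ?_⟩
  · intro M hM hMV
    have hV0 : (0 : ℝ) < V := by
      have : 0 < V := by omega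
      exact_mod_cast this
    have hM0 : (0 : ℝ) < M := by exact_mod_cast hM
    have h1 : Real.log M ≤ 2962 * L := by
      have h2 : (M : ℝ) ≤ 34 * (720 * (V : ℝ) ^ 12) ^ 4 := by exact_mod_cast hMV
      have h3 := Real.log_le_log hM0 h2
      rw [Real.log_mul (by norm_num) (by positivity), Real.log_pow,
        Real.log_mul (by norm_num) (by positivity), Real.log_pow] at h3
      have h34 : Real.log 34 ≤ 34 := by
        linarith [Real.log_le_sub_one_of_pos (by norm_num : (0 : ℝ) < 34)]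
      have h720 : Real.log 720 ≤ 720 := by
        linarith [Real.log_le_sub_one_of_pos (by norm_num : (0 : ℝ) < 720)]
      push_cast at h3
      rw [← hLdef] at h3
      linarith
    have h4 := hlog L hL M hM.ne' h1
    refine Nat.le_floor ?_
    have hd0 : (0 : ℝ) < M.divisors.card := by
      have : 0 < M.divisors.card := Finset.card_pos.mpr ⟨1, Nat.one_mem_divisors.mpr hM.ne'⟩
      exact_mod_cast this
    rw [hY, ← Real.log_le_iff_le_exp hd0]
    exact h4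
  · have h1 : ((⌊Y⌋₊ : ℕ) : ℝ) ≤ Y := Nat.floor_le (by linarith)
    have h2 : ((25 * ⌊Y⌋₊ ^ 2 + 4 : ℕ) : ℝ) ≤ 29 * Y ^ 2 := by
      push_cast
      have h3 : ((⌊Y⌋₊ : ℕ) : ℝ) ^ 2 ≤ Y ^ 2 := pow_le_pow_left₀ (Nat.cast_nonneg _) h1 2
      have h4 : 1 ≤ Y ^ 2 := one_le_pow₀ hY1
      linarith
    refine h2.trans ?_
    have h3 : (29 : ℝ) ≤ Real.exp (4 * (L / Real.log L)) := by
      have h4 : Real.exp 4 ≤ Real.exp (4 * (L / Real.log L)) := Real.exp_le_exp.mpr (by linarith)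
      have h5 : (29 : ℝ) ≤ Real.exp 4 := by
        have h6 : Real.exp 4 = Real.exp 1 ^ 4 := by rw [← Real.exp_nat_mul]; norm_num
        rw [h6]
        have h7 : (2.7 : ℝ) ≤ Real.exp 1 := by linarith [Real.exp_one_gt_d9]
        calc (29 : ℝ) ≤ 2.7 ^ 4 := by norm_num
          _ ≤ Real.exp 1 ^ 4 := pow_le_pow_left₀ (by norm_num) h7 4
      linarith
    calc 29 * Y ^ 2 ≤ Real.exp (4 * (L / Real.log L)) * Y ^ 2 :=
          mul_le_mul_of_nonneg_right h3 (sq_nonneg _)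
      _ = Real.exp ((2 * C + 4) * (L / Real.log L)) := by
          rw [hY, ← Real.exp_nat_mul, ← Real.exp_add]
          congr 1
          push_cast
          ring

/-- points of a progression on a sphere, the last index bound being the smallest. -/
theorem sphere_min : ∃ C : ℝ, 0 < C ∧ ∀ (v : Fin 3 → E) (N : Fin 3 → ℕ), 3 ≤ vol N →
    (∀ i, N 2 ≤ N i) → ∀ (c t : E) (S : Finset E),
    (∀ x ∈ S, x - t ∈ Prog v N ∧ dist c x = 1) →
    (S.card : ℝ) ≤ (vol N : ℝ) ^ (1 / 3 + C / Real.log (Real.log (vol N))) ∧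
    (¬ RatGram v → (S.card : ℝ) ≤ C * (vol N : ℝ) ^ (1 / 3 : ℝ)) := by
  classical
  obtain ⟨C₀, hC₀, hD⟩ := exists_D
  have hl3 : 1 < Real.log 3 := by
    have := one_lt_log (V := 3) le_rfl
    exact_mod_cast this
  have hll3 : 0 < Real.log (Real.log 3) := Real.log_pos hl3
  obtain ⟨C₃, hC₃⟩ : ∃ C₃ : ℝ, C₃ = Real.exp (C₀ * (Real.exp (3 * C₀) / Real.log (Real.log 3))) :=
    ⟨_, rfl⟩
  have hC₃0 : 1 ≤ C₃ := by
    rw [hC₃]
    exact Real.one_le_exp (by positivity)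
  refine ⟨C₀ + (4 + 2 * C₃), by positivity, ?_⟩
  intro v N hV hmin c t S hS
  obtain ⟨V, hVdef⟩ : ∃ V : ℕ, V = vol N := ⟨_, rfl⟩
  rw [← hVdef] at hV
  rw [← hVdef]
  obtain ⟨D, hD1, hD2⟩ := hD V hV
  have hL : 1 < Real.log V := one_lt_log hV
  obtain ⟨L, hLdef⟩ : ∃ L : ℝ, L = Real.log V := ⟨_, rfl⟩
  rw [← hLdef] at hL hD2
  rw [← hLdef]
  have hlogL : 0 < Real.log L := Real.log_pos hL
  have hV0 : (0 : ℝ) < V := by
    have : 0 < V := by omega
    exact_mod_cast this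
  -- index bounds
  have hNV : ∀ i, N i ≤ V := by
    intro i
    have h1 : 2 * N i + 1 ∣ V := by
      rw [hVdef, vol]
      exact Finset.dvd_prod_of_mem (fun i => 2 * N i + 1) (Finset.mem_univ i)
    have h2 := Nat.le_of_dvd (by omega) h1
    omega
  have hcube : (2 * N 2 + 1) ^ 3 ≤ V := by
    rw [hVdef, vol, Fin.prod_univ_three]
    have h0 := hmin 0
    have h1 := hmin 1
    calc (2 * N 2 + 1) ^ 3 = (2 * N 2 + 1) * (2 * N 2 + 1) * (2 * N 2 + 1) := by ring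
      _ ≤ (2 * N 0 + 1) * (2 * N 1 + 1) * (2 * N 2 + 1) := by gcongr
  have hcube' : ((2 * N 2 + 1 : ℕ) : ℝ) ≤ (V : ℝ) ^ (1 / 3 : ℝ) := by
    have h1 : (((2 * N 2 + 1 : ℕ) : ℝ)) ^ (3 : ℕ) ≤ V := by exact_mod_cast hcube
    have h2 : ((((2 * N 2 + 1 : ℕ) : ℝ)) ^ (3 : ℕ)) ^ (1 / 3 : ℝ) ≤ (V : ℝ) ^ (1 / 3 : ℝ) :=
      Real.rpow_le_rpow (by positivity) h1 (by norm_num)
    have h3 : ((((2 * N 2 + 1 : ℕ) : ℝ)) ^ (3 : ℕ)) ^ (1 / 3 : ℝ) = ((2 * N 2 + 1 : ℕ) : ℝ) := by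
      rw [← Real.rpow_natCast, ← Real.rpow_mul (by positivity)]
      norm_num
    rwa [h3] at h2
  -- the set of differences
  have hex : ∀ x ∈ S, ∃ a : Fin 3 → ℤ, (∀ i, |a i| ≤ (N i : ℤ)) ∧ x - t = ∑ i, (a i : ℝ) • v i :=
    fun x hx => (hS x hx).1
  choose! a ha1 ha2 using hex
  obtain ⟨T, hTdef⟩ : ∃ T : Finset E, T = S.image (fun x => x - c) := ⟨_, rfl⟩
  have hcard : T.card = S.card := by
    rw [hTdef]
    exact Finset.card_image_of_injective _ (sub_left_injective)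
  have hbox : InBox T V (N 2) (t - c) (v 0) (v 1) (v 2) (fun y => a (y + c) 0)
      (fun y => a (y + c) 1) (fun y => a (y + c) 2) := by
    intro y hy
    rw [hTdef, Finset.mem_image] at hy
    obtain ⟨x, hx, rfl⟩ := hy
    dsimp only
    rw [sub_add_cancel]
    refine ⟨?_, ?_, ?_, ?_, ?_⟩
    · have h1 := ha2 x hx
      rw [Fin.sum_univ_three] at h1
      have h2 : x - c = (t - c) + (x - t) := by abel
      rw [h2, h1]
      abel
    · exact (ha1 x hx 0).trans (by exact_mod_cast hNV 0)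
    · exact (ha1 x hx 1).trans (by exact_mod_cast hNV 1)
    · exact ha1 x hx 2
    · rw [← dist_eq_norm, dist_comm]
      exact (hS x hx).2
  have h1V : 1 ≤ V := by omega
  have hexp : Real.exp (C₀ * (L / Real.log L)) = (V : ℝ) ^ (C₀ / Real.log L) := by
    rw [Real.rpow_def_of_pos hV0, ← hLdef]
    congr 1
    field_simp
  have hV1 : (1 : ℝ) ≤ V := by exact_mod_cast h1V
  have hV13 : 0 < (V : ℝ) ^ (1 / 3 : ℝ) := Real.rpow_pos_of_pos hV0 _
  refine ⟨?_, ?_⟩
  · have h1 := box_all h1V hD1 hbox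
    rw [hcard] at h1
    have h2 : (S.card : ℝ) ≤ ((25 * D ^ 2 + 4 : ℕ) : ℝ) * ((2 * N 2 + 1 : ℕ) : ℝ) := by
      exact_mod_cast h1
    calc (S.card : ℝ) ≤ ((25 * D ^ 2 + 4 : ℕ) : ℝ) * ((2 * N 2 + 1 : ℕ) : ℝ) := h2
      _ ≤ Real.exp (C₀ * (L / Real.log L)) * (V : ℝ) ^ (1 / 3 : ℝ) :=
          mul_le_mul hD2 hcube' (Nat.cast_nonneg _) (Real.exp_pos _).le
      _ = (V : ℝ) ^ (1 / 3 + C₀ / Real.log L) := by
          rw [hexp, Real.rpow_add hV0]
          ring
      _ ≤ (V : ℝ) ^ (1 / 3 + (C₀ + (4 + 2 * C₃)) / Real.log L) := by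
          refine Real.rpow_le_rpow_of_exponent_le hV1 ?_
          gcongr
          linarith
  · intro hirr
    have hv : ![v 0, v 1, v 2] = v := by
      funext i
      fin_cases i <;> rfl
    have h1 := box_irr h1V hD1 hbox (by rwa [hv])
    rw [hcard] at h1
    have h2 : (S.card : ℝ) ≤ 4 * ((2 * N 2 + 1 : ℕ) : ℝ) + 2 * ((25 * D ^ 2 + 4 : ℕ) : ℝ) := by
      exact_mod_cast h1
    have h3 : Real.exp (C₀ * (L / Real.log L)) ≤ C₃ * (V : ℝ) ^ (1 / 3 : ℝ) := by
      have hVL : (V : ℝ) ^ (1 / 3 : ℝ) = Real.exp (L * (1 / 3)) := by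
        rw [Real.rpow_def_of_pos hV0, ← hLdef]
      by_cases hc : 3 * C₀ ≤ Real.log L
      · have h4 : C₀ * (L / Real.log L) ≤ L * (1 / 3) := by
          rw [mul_div_assoc', div_le_iff₀ hlogL]
          nlinarith
        calc Real.exp (C₀ * (L / Real.log L)) ≤ Real.exp (L * (1 / 3)) := Real.exp_le_exp.mpr h4
          _ = 1 * (V : ℝ) ^ (1 / 3 : ℝ) := by rw [hVL, one_mul]
          _ ≤ C₃ * (V : ℝ) ^ (1 / 3 : ℝ) := mul_le_mul_of_nonneg_right hC₃0 hV13.le
      · push Not at hc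
        have h5 : L ≤ Real.exp (3 * C₀) := by
          rw [← Real.log_le_iff_le_exp (by linarith)]
          exact hc.le
        have h6 : Real.log (Real.log 3) ≤ Real.log L := by
          refine Real.log_le_log (by linarith) ?_
          rw [hLdef]
          refine Real.log_le_log (by norm_num) ?_
          exact_mod_cast hV
        have h7 : L / Real.log L ≤ Real.exp (3 * C₀) / Real.log (Real.log 3) :=
          div_le_div₀ (Real.exp_pos _).le h5 hll3 h6
        have h8 : Real.exp (C₀ * (L / Real.log L)) ≤ C₃ := by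
          rw [hC₃]
          exact Real.exp_le_exp.mpr (mul_le_mul_of_nonneg_left h7 hC₀.le)
        have h9 : 1 ≤ (V : ℝ) ^ (1 / 3 : ℝ) := Real.one_le_rpow hV1 (by norm_num)
        calc Real.exp (C₀ * (L / Real.log L)) ≤ C₃ * 1 := by rw [mul_one]; exact h8
          _ ≤ C₃ * (V : ℝ) ^ (1 / 3 : ℝ) := mul_le_mul_of_nonneg_left h9 (by linarith)
    calc (S.card : ℝ) ≤ 4 * ((2 * N 2 + 1 : ℕ) : ℝ) + 2 * ((25 * D ^ 2 + 4 : ℕ) : ℝ) := h2
      _ ≤ 4 * (V : ℝ) ^ (1 / 3 : ℝ) + 2 * (C₃ * (V : ℝ) ^ (1 / 3 : ℝ)) := by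
          have := hD2.trans h3
          linarith
      _ = (4 + 2 * C₃) * (V : ℝ) ^ (1 / 3 : ℝ) := by ring
      _ ≤ (C₀ + (4 + 2 * C₃)) * (V : ℝ) ^ (1 / 3 : ℝ) := by
          refine mul_le_mul_of_nonneg_right ?_ hV13.le
          linarith

theorem vol_perm (σ : Equiv.Perm (Fin 3)) (N : Fin 3 → ℕ) : vol (fun i => N (σ i)) = vol N := by
  unfold vol
  exact Equiv.prod_comp σ (fun i => 2 * N i + 1)

theorem prog_perm (σ : Equiv.Perm (Fin 3)) (v : Fin 3 → E) (N : Fin 3 → ℕ) {x : E}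
    (hx : x ∈ Prog v N) : x ∈ Prog (fun i => v (σ i)) (fun i => N (σ i)) := by
  obtain ⟨a, ha, hxa⟩ := hx
  refine ⟨fun i => a (σ i), fun i => ha (σ i), ?_⟩
  rw [hxa]
  exact (Equiv.sum_comp σ (fun i => (a i : ℝ) • v i)).symm

theorem gram_perm (σ : Equiv.Perm (Fin 3)) (v : Fin 3 → E) (h : RatGram (fun i => v (σ i))) :
    RatGram v := by
  obtain ⟨r, q, hq⟩ := h
  refine ⟨r, fun i j => q (σ.symm i) (σ.symm j), fun i j => ?_⟩
  have := hq (σ.symm i) (σ.symm j)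
  simpa using this

/-- points of a progression on a sphere. -/
theorem sphere_all : ∃ C : ℝ, 0 < C ∧ ∀ (v : Fin 3 → E) (N : Fin 3 → ℕ), 3 ≤ vol N →
    ∀ (c t : E) (S : Finset E), (∀ x ∈ S, x - t ∈ Prog v N ∧ dist c x = 1) →
    (S.card : ℝ) ≤ (vol N : ℝ) ^ (1 / 3 + C / Real.log (Real.log (vol N))) ∧
    (¬ RatGram v → (S.card : ℝ) ≤ C * (vol N : ℝ) ^ (1 / 3 : ℝ)) := by
  obtain ⟨C, hC, h⟩ := sphere_min (E := E)
  refine ⟨C, hC, ?_⟩
  intro v N hV c t S hS
  obtain ⟨k, -, hk⟩ := Finset.exists_min_image (Finset.univ : Finset (Fin 3)) N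
    Finset.univ_nonempty
  obtain ⟨σ, hσ⟩ : ∃ σ : Equiv.Perm (Fin 3), σ 2 = k := ⟨Equiv.swap 2 k, Equiv.swap_apply_left 2 k⟩
  have h1 := h (fun i => v (σ i)) (fun i => N (σ i)) (by rw [vol_perm]; exact hV)
    (fun i => by
      rw [hσ]
      exact hk (σ i) (Finset.mem_univ _)) c t S
    (fun x hx => ⟨prog_perm σ v N (hS x hx).1, (hS x hx).2⟩)
  rw [vol_perm] at h1
  exact ⟨h1.1, fun hirr => h1.2 fun h2 => hirr (gram_perm σ v h2)⟩

/-- unit distances between an arbitrary finite set `A` and a set `P` covered by `m` translates of a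
three-dimensional progression. -/
theorem unit_dist : ∃ C : ℝ, 0 < C ∧ ∀ (v : Fin 3 → E) (N : Fin 3 → ℕ), 3 ≤ vol N →
    ∀ (m : ℕ) (t : Fin m → E) (A P : Finset E), (∀ p ∈ P, ∃ j, p - t j ∈ Prog v N) →
    (((A ×ˢ P).filter (fun z => dist z.1 z.2 = 1)).card : ℝ) ≤
      m * A.card * (vol N : ℝ) ^ (1 / 3 + C / Real.log (Real.log (vol N))) ∧
    (¬ RatGram v → (((A ×ˢ P).filter (fun z => dist z.1 z.2 = 1)).card : ℝ) ≤
      C * (m * A.card * (vol N : ℝ) ^ (1 / 3 : ℝ))) := by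
  classical
  obtain ⟨C, hC, h⟩ := sphere_all (E := E)
  refine ⟨C, hC, ?_⟩
  intro v N hV m t A P hP
  have key : ∀ B : ℝ, 0 ≤ B → (∀ (c t : E) (S : Finset E),
      (∀ x ∈ S, x - t ∈ Prog v N ∧ dist c x = 1) → (S.card : ℝ) ≤ B) →
      (((A ×ˢ P).filter (fun z => dist z.1 z.2 = 1)).card : ℝ) ≤ m * A.card * B := by
    intro B hB0 hB
    have h1 : ((A ×ˢ P).filter (fun z => dist z.1 z.2 = 1)).card =
        ∑ c ∈ A, (P.filter (fun x => dist c x = 1)).card := by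
      rw [Finset.card_filter, Finset.sum_product]
      refine Finset.sum_congr rfl fun c _ => ?_
      rw [Finset.card_filter]
    have h2 : ∀ c ∈ A, ((P.filter (fun x => dist c x = 1)).card : ℝ) ≤ m * B := by
      intro c _
      have h3 : P.filter (fun x => dist c x = 1) ⊆
          (Finset.univ : Finset (Fin m)).biUnion
            (fun j => P.filter (fun x => x - t j ∈ Prog v N ∧ dist c x = 1)) := by
        intro x hx
        rw [Finset.mem_filter] at hx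
        obtain ⟨j, hj⟩ := hP x hx.1
        rw [Finset.mem_biUnion]
        exact ⟨j, Finset.mem_univ _, Finset.mem_filter.mpr ⟨hx.1, hj, hx.2⟩⟩
      have h4 := (Finset.card_le_card h3).trans Finset.card_biUnion_le
      have h5 : ((P.filter (fun x => dist c x = 1)).card : ℝ) ≤
          ∑ j : Fin m, ((P.filter (fun x => x - t j ∈ Prog v N ∧ dist c x = 1)).card : ℝ) := by
        exact_mod_cast h4
      refine h5.trans ?_
      have h6 : ∑ j : Fin m, ((P.filter (fun x => x - t j ∈ Prog v N ∧ dist c x = 1)).card : ℝ) ≤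
          ∑ _j : Fin m, B := by
        refine Finset.sum_le_sum fun j _ => hB c (t j) _ ?_
        intro x hx
        exact (Finset.mem_filter.mp hx).2
      refine h6.trans (le_of_eq ?_)
      rw [Finset.sum_const, Finset.card_univ, Fintype.card_fin, nsmul_eq_mul]
    rw [h1]
    push_cast
    calc ∑ c ∈ A, ((P.filter (fun x => dist c x = 1)).card : ℝ) ≤ ∑ _c ∈ A, (m : ℝ) * B :=
          Finset.sum_le_sum h2
      _ = m * A.card * B := by
          rw [Finset.sum_const, nsmul_eq_mul]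
          ring
  have hV0 : (0 : ℝ) ≤ (vol N : ℝ) := Nat.cast_nonneg _
  refine ⟨key _ (Real.rpow_nonneg hV0 _) fun c t S hS => (h v N hV c t S hS).1, fun hirr => ?_⟩
  have h1 := key (C * (vol N : ℝ) ^ (1 / 3 : ℝ)) (mul_nonneg hC.le (Real.rpow_nonneg hV0 _))
    (fun c t S hS => (h v N hV c t S hS).2 hirr)
  refine h1.trans (le_of_eq ?_)
  ring

end Pool.Agent.helper21.UD
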