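import Mathlib

/-!
# MP_6cfeb2_co: the number of integer solutions of `v² + Δ u² = M`

At most `25 τ(M)²`. Elementary: for primitive solutions `z₁ = (v₁, u₁)`, `z = (v, u)` and squarefree `Δ` the
solutions `z` with a given value of `gcd(M, v₁ u - v u₁)` differ by solutions of `a² + Δ b² = 4`.
-/

set_option autoImplicit false

namespace Pool.Agent.helper21.UD

theorem gcd_dvd_two {Δ M : ℤ} (hΔ : Squarefree Δ) {v1 u1 v2 u2 e : ℤ}
    (h1 : v1 ^ 2 + Δ * u1 ^ 2 = M) (h2 : v2 ^ 2 + Δ * u2 ^ 2 = M)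
    (c1 : IsCoprime v1 u1) (c2 : IsCoprime v2 u2) (he : e ^ 2 ∣ M)
    (hD : e ∣ v1 * u2 - v2 * u1) (hE : e ∣ v1 * u2 + v2 * u1) : e ∣ 2 := by
  have h3 : e ∣ 2 * (v1 * u2) := by
    have := dvd_add hD hE
    have e1 : v1 * u2 - v2 * u1 + (v1 * u2 + v2 * u1) = 2 * (v1 * u2) := by ring
    rwa [e1] at this
  have hcop : IsCoprime e (v1 * u2) := by
    rw [Int.isCoprime_iff_gcd_eq_one]
    by_contra hne
    obtain ⟨p, hp, hpd⟩ := Nat.exists_prime_and_dvd hne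
    have hpe : (p : ℤ) ∣ e := (Int.natCast_dvd_natCast.mpr hpd).trans (Int.gcd_dvd_left _ _)
    have hpv : (p : ℤ) ∣ v1 * u2 := (Int.natCast_dvd_natCast.mpr hpd).trans (Int.gcd_dvd_right _ _)
    have hpP : Prime (p : ℤ) := Nat.prime_iff_prime_int.mp hp
    have hpM : (p : ℤ) ^ 2 ∣ M := (pow_dvd_pow_of_dvd hpe 2).trans he
    rcases hpP.dvd_or_dvd hpv with h | h
    · have h4 : (p : ℤ) ^ 2 ∣ Δ * u1 ^ 2 := by
        have h5 : (p : ℤ) ^ 2 ∣ v1 ^ 2 := pow_dvd_pow_of_dvd h 2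
        have h6 : Δ * u1 ^ 2 = M - v1 ^ 2 := by linarith
        rw [h6]
        exact dvd_sub hpM h5
      have h7 : IsCoprime ((p : ℤ) ^ 2) (u1 ^ 2) := by
        apply IsCoprime.pow
        exact IsCoprime.of_isCoprime_of_dvd_left c1 h
      have h8 : (p : ℤ) ^ 2 ∣ Δ := h7.dvd_of_dvd_mul_right h4
      have h9 := hΔ (p : ℤ) (by rwa [← pow_two])
      exact hpP.not_isUnit h9
    · have h4 : (p : ℤ) ∣ v2 ^ 2 := by
        have h5 : v2 ^ 2 = M - Δ * u2 ^ 2 := by linarith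
        rw [h5]
        refine dvd_sub ((dvd_pow_self (p : ℤ) two_ne_zero).trans hpM) ?_
        exact Dvd.dvd.mul_left (h.trans (dvd_pow_self u2 two_ne_zero)) Δ
      have h6 : (p : ℤ) ∣ v2 := hpP.dvd_of_dvd_pow h4
      exact hpP.not_isUnit (c2.isUnit_of_dvd' h6 h)
  exact hcop.dvd_of_dvd_mul_right h3

/-- two solutions with the same gcd differ by a solution of `a² + Δ b² = 4`. -/
theorem same_gcd {Δ M : ℤ} (hΔ : Squarefree Δ) (hM : M ≠ 0) {v1 u1 v2 u2 v3 u3 : ℤ}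
    (h1 : v1 ^ 2 + Δ * u1 ^ 2 = M) (h2 : v2 ^ 2 + Δ * u2 ^ 2 = M) (h3 : v3 ^ 2 + Δ * u3 ^ 2 = M)
    (c1 : IsCoprime v1 u1) (c2 : IsCoprime v2 u2)
    (hg : Int.gcd M (v1 * u2 - v2 * u1) = Int.gcd M (v1 * u3 - v3 * u1)) :
    M ∣ 2 * (u2 * v3 - v2 * u3) := by
  set d : ℤ := (Int.gcd M (v1 * u2 - v2 * u1) : ℤ) with hd
  have hd2 : d ∣ v1 * u2 - v2 * u1 := Int.gcd_dvd_right _ _
  have hd3 : d ∣ v1 * u3 - v3 * u1 := by
    rw [hd, hg]
    exact Int.gcd_dvd_right _ _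
  have hdM : d ∣ M := Int.gcd_dvd_left _ _
  have hd0 : d ≠ 0 := by
    intro h
    rw [h] at hdM
    exact hM (zero_dvd_iff.mp hdM)
  have key : ∀ (v u : ℤ), v ^ 2 + Δ * u ^ 2 = M → (Int.gcd M (v1 * u - v * u1) : ℤ) = d →
      M ∣ d * (v1 * u + v * u1) := by
    intro v u hvu hgd
    rw [← hgd]
    have e1 : M ∣ (v1 * u - v * u1) * (v1 * u + v * u1) := by
      refine ⟨u ^ 2 - u1 ^ 2, ?_⟩
      have : v1 ^ 2 = M - Δ * u1 ^ 2 := by linarith
      have h' : v ^ 2 = M - Δ * u ^ 2 := by linarith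
      calc (v1 * u - v * u1) * (v1 * u + v * u1) = v1 ^ 2 * u ^ 2 - v ^ 2 * u1 ^ 2 := by ring
        _ = M * (u ^ 2 - u1 ^ 2) := by rw [this, h']; ring
    rw [Int.gcd_eq_gcd_ab M (v1 * u - v * u1)]
    have e2 : (M * Int.gcdA M (v1 * u - v * u1) + (v1 * u - v * u1) *
        Int.gcdB M (v1 * u - v * u1)) * (v1 * u + v * u1) =
        M * (Int.gcdA M (v1 * u - v * u1) * (v1 * u + v * u1)) +
        (v1 * u - v * u1) * (v1 * u + v * u1) * Int.gcdB M (v1 * u - v * u1) := by ring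
    rw [e2]
    exact dvd_add (dvd_mul_right _ _) (Dvd.dvd.mul_right e1 _)
  have hE2 : M ∣ d * (v1 * u2 + v2 * u1) := key v2 u2 h2 rfl
  have hE3 : M ∣ d * (v1 * u3 + v3 * u1) := key v3 u3 h3 (by rw [hd, hg])
  obtain ⟨M', hM'⟩ := hdM
  have hM'0 : M' ≠ 0 := by
    rintro rfl
    rw [mul_zero] at hM'
    exact hM hM'
  have hE2' : M' ∣ v1 * u2 + v2 * u1 := by
    rw [hM'] at hE2
    exact (mul_dvd_mul_iff_left hd0).mp hE2
  have hE3' : M' ∣ v1 * u3 + v3 * u1 := by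
    rw [hM'] at hE3
    exact (mul_dvd_mul_iff_left hd0).mp hE3
  obtain ⟨α, β, hαβ⟩ := c1
  set X : ℤ := u2 * v3 - v2 * u3 with hX
  have hXd : d ∣ X := by
    have e1 : X = (v1 * u2 - v2 * u1) * (α * v3 + β * u3) - (v1 * u3 - v3 * u1) *
        (α * v2 + β * u2) := by
      have : X = (α * v1 + β * u1) * X := by rw [hαβ, one_mul]
      rw [this, hX]
      ring
    rw [e1]
    exact dvd_sub (Dvd.dvd.mul_right hd2 _) (Dvd.dvd.mul_right hd3 _)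
  have hXM' : M' ∣ X := by
    have e1 : X = (v1 * u2 + v2 * u1) * (α * v3 - β * u3) - (v1 * u3 + v3 * u1) *
        (α * v2 - β * u2) := by
      have : X = (α * v1 + β * u1) * X := by rw [hαβ, one_mul]
      rw [this, hX]
      ring
    rw [e1]
    exact dvd_sub (Dvd.dvd.mul_right hE2' _) (Dvd.dvd.mul_right hE3' _)
  set e : ℤ := (Int.gcd d M' : ℤ) with he
  have hed : e ∣ d := Int.gcd_dvd_left _ _
  have heM : e ∣ M' := Int.gcd_dvd_right _ _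
  have he2 : e ∣ 2 := by
    refine gcd_dvd_two hΔ h1 h2 ⟨α, β, hαβ⟩ c2 ?_ (hed.trans hd2) (heM.trans hE2')
    rw [hM', pow_two]
    exact mul_dvd_mul hed heM
  have h5 : M ∣ e * X := by
    rw [he, Int.gcd_eq_gcd_ab d M', hM']
    have e1 : (d * Int.gcdA d M' + M' * Int.gcdB d M') * X =
        (d * X) * Int.gcdA d M' + (M' * X) * Int.gcdB d M' := by ring
    rw [e1]
    refine dvd_add (Dvd.dvd.mul_right ?_ _) (Dvd.dvd.mul_right ?_ _)
    · exact mul_dvd_mul_left d hXM'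
    · rw [mul_comm d M']
      exact mul_dvd_mul_left M' hXd
  exact h5.trans (mul_dvd_mul_right he2 X)

theorem close_pair {Δ M : ℤ} (hΔ : 0 < Δ) (hM : M ≠ 0) {v2 u2 v3 u3 : ℤ}
    (h2 : v2 ^ 2 + Δ * u2 ^ 2 = M) (h3 : v3 ^ 2 + Δ * u3 ^ 2 = M)
    (hd : M ∣ 2 * (u2 * v3 - v2 * u3)) :
    ∃ a ∈ Finset.Icc (-2 : ℤ) 2, ∃ b ∈ Finset.Icc (-2 : ℤ) 2,
      2 * v3 = v2 * a + Δ * u2 * b ∧ 2 * u3 = u2 * a - v2 * b := by
  obtain ⟨b, hb⟩ := hd
  have h4 : (2 * (v2 * v3 + Δ * u2 * u3)) ^ 2 = M ^ 2 * (4 - Δ * b ^ 2) := by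
    have e1 : (2 * (v2 * v3 + Δ * u2 * u3)) ^ 2 + Δ * (2 * (u2 * v3 - v2 * u3)) ^ 2 =
        4 * ((v2 ^ 2 + Δ * u2 ^ 2) * (v3 ^ 2 + Δ * u3 ^ 2)) := by ring
    rw [h2, h3, hb] at e1
    linear_combination e1
  have h5 : M ∣ 2 * (v2 * v3 + Δ * u2 * u3) := by
    have h6 : M ^ 2 ∣ (2 * (v2 * v3 + Δ * u2 * u3)) ^ 2 := ⟨_, h4⟩
    exact (Int.pow_dvd_pow_iff two_ne_zero).mp h6
  obtain ⟨a, ha⟩ := h5
  have hab : a ^ 2 + Δ * b ^ 2 = 4 := by
    rw [ha] at h4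
    have h6 : M ^ 2 * (a ^ 2 + Δ * b ^ 2) = M ^ 2 * 4 := by linear_combination h4
    exact mul_left_cancel₀ (pow_ne_zero 2 hM) h6
  have hb2 : b ^ 2 ≤ 4 := by
    have : b ^ 2 ≤ Δ * b ^ 2 := by nlinarith [sq_nonneg b]
    nlinarith [sq_nonneg a]
  have ha2 : a ^ 2 ≤ 4 := by
    have : 0 ≤ Δ * b ^ 2 := by positivity
    linarith
  refine ⟨a, ?_, b, ?_, ?_, ?_⟩
  · rw [Finset.mem_Icc]
    constructor <;> nlinarith
  · rw [Finset.mem_Icc]
    constructor <;> nlinarith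
  · have e1 : M * (2 * v3) = M * (v2 * a + Δ * u2 * b) := by
      have : M * (v2 * a + Δ * u2 * b) = v2 * (M * a) + Δ * u2 * (M * b) := by ring
      rw [this, ← ha, ← hb, ← h2]
      ring
    exact mul_left_cancel₀ hM e1
  · have e1 : M * (2 * u3) = M * (u2 * a - v2 * b) := by
      have : M * (u2 * a - v2 * b) = u2 * (M * a) - v2 * (M * b) := by ring
      rw [this, ← ha, ← hb, ← h2]
      ring
    exact mul_left_cancel₀ hM e1

/-- primitive solutions, squarefree `Δ`: at most `25 τ(M)`. -/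
theorem card_prim {Δ M : ℤ} (hΔ0 : 0 < Δ) (hΔ : Squarefree Δ) (hM : M ≠ 0) (T : Finset (ℤ × ℤ))
    (hT : ∀ z ∈ T, z.1 ^ 2 + Δ * z.2 ^ 2 = M ∧ IsCoprime z.1 z.2) :
    T.card ≤ 25 * (Nat.divisors M.natAbs).card := by
  classical
  rcases T.eq_empty_or_nonempty with rfl | ⟨z1, hz1⟩
  · simp
  obtain ⟨h1, c1⟩ := hT z1 hz1
  have hmap : ∀ z ∈ T, Int.gcd M (z1.1 * z.2 - z.1 * z1.2) ∈ Nat.divisors M.natAbs := by
    intro z _
    rw [Nat.mem_divisors]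
    exact ⟨Int.natCast_dvd.mp (Int.gcd_dvd_left _ _), by simpa using hM⟩
  refine (Finset.card_le_mul_card_image_of_maps_to hmap 25 ?_)
  intro d _
  rcases (T.filter (fun z => Int.gcd M (z1.1 * z.2 - z.1 * z1.2) = d)).eq_empty_or_nonempty with
    h | ⟨z2, hz2⟩
  · rw [h]; simp
  rw [Finset.mem_filter] at hz2
  obtain ⟨h2, c2⟩ := hT z2 hz2.1
  have hsub : T.filter (fun z => Int.gcd M (z1.1 * z.2 - z.1 * z1.2) = d) ⊆
      (Finset.Icc (-2 : ℤ) 2 ×ˢ Finset.Icc (-2 : ℤ) 2).image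
        (fun ab => ((z2.1 * ab.1 + Δ * z2.2 * ab.2) / 2, (z2.2 * ab.1 - z2.1 * ab.2) / 2)) := by
    intro z hz
    rw [Finset.mem_filter] at hz
    obtain ⟨h3, c3⟩ := hT z hz.1
    have h4 : M ∣ 2 * (z2.2 * z.1 - z2.1 * z.2) :=
      same_gcd hΔ hM h1 h2 h3 c1 c2 (by rw [hz2.2, hz.2])
    obtain ⟨a, ha, b, hb, e1, e2⟩ := close_pair hΔ0 hM h2 h3 h4
    rw [Finset.mem_image]
    refine ⟨(a, b), Finset.mem_product.mpr ⟨ha, hb⟩, ?_⟩
    rw [← e1, ← e2]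
    simp
  refine (Finset.card_le_card hsub).trans (Finset.card_image_le.trans ?_)
  rw [Finset.card_product]
  simp

/-- all solutions, squarefree `Δ`. -/
theorem card_sqf {Δ M : ℤ} (hΔ0 : 0 < Δ) (hΔ : Squarefree Δ) (hM : M ≠ 0) (T : Finset (ℤ × ℤ))
    (hT : ∀ z ∈ T, z.1 ^ 2 + Δ * z.2 ^ 2 = M) :
    T.card ≤ 25 * (Nat.divisors M.natAbs).card ^ 2 := by
  classical
  have hmap : ∀ z ∈ T, Int.gcd z.1 z.2 ∈ Nat.divisors M.natAbs := by
    intro z hz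
    rw [Nat.mem_divisors]
    refine ⟨?_, by simpa using hM⟩
    rw [← Int.natCast_dvd, ← hT z hz]
    refine dvd_add ?_ ?_
    · exact (Int.gcd_dvd_left _ _).trans (dvd_pow_self _ two_ne_zero)
    · exact Dvd.dvd.mul_left ((Int.gcd_dvd_right _ _).trans (dvd_pow_self _ two_ne_zero)) _
  have h1 := Finset.card_le_mul_card_image_of_maps_to hmap (25 * (Nat.divisors M.natAbs).card) ?_
  · refine h1.trans (le_of_eq ?_)
    ring
  intro g hg
  have hg0 : (g : ℤ) ≠ 0 := by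
    have := Nat.pos_of_mem_divisors hg
    exact_mod_cast this.ne'
  rcases (T.filter (fun z => Int.gcd z.1 z.2 = g)).eq_empty_or_nonempty with h | ⟨z2, hz2⟩
  · rw [h]; simp
  have hgM : (g : ℤ) ^ 2 ∣ M := by
    rw [Finset.mem_filter] at hz2
    rw [← hT z2 hz2.1, ← hz2.2]
    refine dvd_add ?_ ?_
    · exact pow_dvd_pow_of_dvd (Int.gcd_dvd_left _ _) 2
    · exact Dvd.dvd.mul_left (pow_dvd_pow_of_dvd (Int.gcd_dvd_right _ _) 2) _
  obtain ⟨M', hM'⟩ := hgM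
  have hM'0 : M' ≠ 0 := by
    rintro rfl
    rw [mul_zero] at hM'
    exact hM hM'
  have h2 : (T.filter (fun z => Int.gcd z.1 z.2 = g)).card ≤ 25 * (Nat.divisors M'.natAbs).card := by
    have h3 := card_prim hΔ0 hΔ hM'0
      ((T.filter (fun z => Int.gcd z.1 z.2 = g)).image (fun z => (z.1 / (g : ℤ), z.2 / (g : ℤ)))) ?_
    · rw [Finset.card_image_of_injOn] at h3
      · exact h3
      · intro z hz z' hz' hzz
        rw [Finset.mem_coe, Finset.mem_filter] at hz hz'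
        have d1 : (g : ℤ) ∣ z.1 := by rw [← hz.2]; exact Int.gcd_dvd_left _ _
        have d2 : (g : ℤ) ∣ z.2 := by rw [← hz.2]; exact Int.gcd_dvd_right _ _
        have d1' : (g : ℤ) ∣ z'.1 := by rw [← hz'.2]; exact Int.gcd_dvd_left _ _
        have d2' : (g : ℤ) ∣ z'.2 := by rw [← hz'.2]; exact Int.gcd_dvd_right _ _
        have e1 : z.1 / (g : ℤ) = z'.1 / (g : ℤ) := congrArg Prod.fst hzz
        have e2 : z.2 / (g : ℤ) = z'.2 / (g : ℤ) := congrArg Prod.snd hzz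
        refine Prod.ext ?_ ?_
        · rw [← Int.mul_ediv_cancel' d1, e1, Int.mul_ediv_cancel' d1']
        · rw [← Int.mul_ediv_cancel' d2, e2, Int.mul_ediv_cancel' d2']
    · intro z hz
      rw [Finset.mem_image] at hz
      obtain ⟨y, hy, rfl⟩ := hz
      rw [Finset.mem_filter] at hy
      obtain ⟨a, ha⟩ : (g : ℤ) ∣ y.1 := by rw [← hy.2]; exact Int.gcd_dvd_left _ _
      obtain ⟨b, hb⟩ : (g : ℤ) ∣ y.2 := by rw [← hy.2]; exact Int.gcd_dvd_right _ _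
      have h5 : y.1 ^ 2 + Δ * y.2 ^ 2 = M := hT y hy.1
      dsimp only
      constructor
      · rw [ha, hb, Int.mul_ediv_cancel_left _ hg0, Int.mul_ediv_cancel_left _ hg0]
        rw [ha, hb, hM'] at h5
        have h6 : (g : ℤ) ^ 2 * (a ^ 2 + Δ * b ^ 2) = (g : ℤ) ^ 2 * M' := by
          rw [← h5]; ring
        exact mul_left_cancel₀ (pow_ne_zero 2 hg0) h6
      · rw [Int.isCoprime_iff_gcd_eq_one]
        have h6 : 0 < Int.gcd y.1 y.2 := by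
          rw [hy.2]
          exact Nat.pos_of_mem_divisors hg
        have h7 := Int.gcd_ediv_gcd_ediv_gcd (i := y.1) (j := y.2) h6
        rw [hy.2] at h7
        exact h7
  refine h2.trans (Nat.mul_le_mul_left 25 (Finset.card_le_card ?_))
  refine Nat.divisors_subset_of_dvd (by simpa using hM) ?_
  rw [hM', Int.natAbs_mul]
  exact dvd_mul_left _ _

/-- **all solutions**: `v² + Δ u² = M` has at most `25 τ(M)²` solutions, `Δ ≥ 1`, `M ≠ 0`. -/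
theorem card_rep {Δ M : ℤ} (hΔ0 : 0 < Δ) (hM : M ≠ 0) (T : Finset (ℤ × ℤ))
    (hT : ∀ z ∈ T, z.1 ^ 2 + Δ * z.2 ^ 2 = M) :
    T.card ≤ 25 * (Nat.divisors M.natAbs).card ^ 2 := by
  classical
  obtain ⟨a, b, hab, ha⟩ := Nat.sq_mul_squarefree Δ.natAbs
  have hΔ : Δ = (b : ℤ) ^ 2 * (a : ℤ) := by
    have : ((Δ.natAbs : ℕ) : ℤ) = Δ := Int.natAbs_of_nonneg hΔ0.le
    rw [← this, ← hab]
    push_cast
    ring
  have ha0 : (0 : ℤ) < a := by
    have : a ≠ 0 := ha.ne_zero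
    exact_mod_cast Nat.pos_of_ne_zero this
  have hb0 : (b : ℤ) ≠ 0 := by
    intro h
    rw [hΔ, h] at hΔ0
    simp at hΔ0
  have hsq : Squarefree (a : ℤ) := by
    rw [← Int.squarefree_natAbs, Int.natAbs_natCast]
    exact ha
  have h1 := card_sqf ha0 hsq hM (T.image (fun z => (z.1, (b : ℤ) * z.2))) ?_
  · rw [Finset.card_image_of_injOn] at h1
    · exact h1
    · intro z _ z' _ hzz
      obtain ⟨e1, e2⟩ := Prod.mk.inj hzz
      exact Prod.ext e1 (mul_left_cancel₀ hb0 e2)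
  · intro z hz
    rw [Finset.mem_image] at hz
    obtain ⟨y, hy, rfl⟩ := hz
    rw [← hT y hy, hΔ]
    ring

end Pool.Agent.helper21.UD

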